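import Mathlib

/-!
MP_d0b36d_nt: asymptotics of the solutions of
`(N-M)^n + ... + (N-1)^n = N^n` with a fixed number `M` of terms, uniformly in `M`.
-/

set_option autoImplicit false

namespace Pool.Agent.Lib.MP_d0b36d_nt

open Finset Filter Topology

/-- `Σ_{1 ≤ j ≤ M} j^p e^{-j x}` -/
noncomputable def sp (p M : ℕ) (x : ℝ) : ℝ := ∑ j ∈ Icc 1 M, (j : ℝ) ^ p * Real.exp (-(j * x))

/-- the constant of all estimates -/
noncomputable def Sc : ℝ := ∑' j : ℕ, (j : ℝ) ^ 4 * Real.exp (-(j * (1 / 3)))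

lemma summable_sc (p : ℕ) :
    Summable (fun j : ℕ => (j : ℝ) ^ p * Real.exp (-(j * (1 / 3)))) := by
  have h := Real.summable_pow_mul_exp_neg_nat_mul p (r := 1 / 3) (by norm_num)
  refine h.congr fun j => ?_
  congr 2
  ring

lemma sum_sc_le {p : ℕ} (hp : p ≤ 4) (M : ℕ) :
    ∑ j ∈ Icc 1 M, (j : ℝ) ^ p * Real.exp (-(j * (1 / 3))) ≤ Sc := by
  have h1 : ∑ j ∈ Icc 1 M, (j : ℝ) ^ p * Real.exp (-(j * (1 / 3))) ≤
      ∑ j ∈ Icc 1 M, (j : ℝ) ^ 4 * Real.exp (-(j * (1 / 3))) := by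
    apply sum_le_sum
    intro j hj
    rw [mem_Icc] at hj
    have hj1 : (1 : ℝ) ≤ j := by exact_mod_cast hj.1
    exact mul_le_mul_of_nonneg_right (pow_le_pow_right₀ hj1 hp) (Real.exp_pos _).le
  refine h1.trans ?_
  exact (summable_sc 4).sum_le_tsum _ (fun j _ => by positivity)

lemma exp_third {x : ℝ} (hx : 1 / 3 ≤ x) (j : ℕ) :
    Real.exp (-(j * x)) ≤ Real.exp (-(j * (1 / 3))) := by
  apply Real.exp_le_exp.mpr
  have : (0 : ℝ) ≤ j := Nat.cast_nonneg j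
  nlinarith

lemma sp_le {p : ℕ} (hp : p ≤ 4) (M : ℕ) {x : ℝ} (hx : 1 / 3 ≤ x) : sp p M x ≤ Sc := by
  refine le_trans ?_ (sum_sc_le hp M)
  apply sum_le_sum
  intro j _
  exact mul_le_mul_of_nonneg_left (exp_third hx j) (by positivity)

lemma sp_nonneg (p M : ℕ) (x : ℝ) : 0 ≤ sp p M x :=
  sum_nonneg fun j _ => by positivity

lemma Sc_nonneg : 0 ≤ Sc := tsum_nonneg fun j => by positivity

lemma log_two_lt_one : Real.log 2 < 1 := by
  have := Real.log_two_lt_d9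
  linarith

lemma third_lt_log_two : (1 / 3 : ℝ) < Real.log 2 := by
  have := Real.log_two_gt_d9
  linarith

lemma half_le_exp {x : ℝ} (hx : x ≤ Real.log 2) : 1 / 2 ≤ Real.exp (-x) := by
  have h : Real.exp (-Real.log 2) ≤ Real.exp (-x) := Real.exp_le_exp.mpr (by linarith)
  rw [Real.exp_neg, Real.exp_log (by norm_num)] at h
  linarith

lemma one_le_sp_third {M : ℕ} (hM : 2 ≤ M) {t : ℝ} (h : t ≤ 1 / 3) : 1 ≤ sp 0 M t := by
  have h1 : ∑ j ∈ Icc (1 : ℕ) 2, (j : ℝ) ^ 0 * Real.exp (-(j * t)) ≤ sp 0 M t := by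
    apply sum_le_sum_of_subset_of_nonneg
    · exact Icc_subset_Icc_right hM
    · intro j _ _
      positivity
  have h2 : ∑ j ∈ Icc (1 : ℕ) 2, (j : ℝ) ^ 0 * Real.exp (-(j * t)) =
      Real.exp (-t) + Real.exp (-(2 * t)) := by
    have : Icc (1 : ℕ) 2 = ({1, 2} : Finset ℕ) := by decide
    rw [this, sum_pair (by norm_num)]
    simp
  rw [h2] at h1
  have h3 := Real.add_one_le_exp (-t)
  have h4 := Real.add_one_le_exp (-(2 * t))
  linarith

lemma sp_log_two (M : ℕ) : sp 0 M (Real.log 2) = 1 - (1 / 2) ^ M := by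
  unfold sp
  have h : ∀ j : ℕ, Real.exp (-(j * Real.log 2)) = (1 / 2 : ℝ) ^ j := by
    intro j
    rw [Real.exp_neg, mul_comm, Real.exp_mul, Real.exp_log (by norm_num), Real.rpow_natCast,
      one_div, inv_pow]
  simp only [h, pow_zero, one_mul]
  induction M with
  | zero => simp
  | succ M ih =>
    rw [sum_Icc_succ_top (by omega), ih, pow_succ]
    ring

lemma sp_continuous (p M : ℕ) : Continuous (sp p M) := by
  unfold sp
  fun_prop

/-- existence of the root -/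
lemma exists_root {M : ℕ} (hM : 2 ≤ M) :
    ∃ x : ℝ, 1 / 3 ≤ x ∧ x < Real.log 2 ∧ sp 0 M x = 1 := by
  have h1 := one_le_sp_third hM (le_refl (1 / 3 : ℝ))
  have h2 := sp_log_two M
  have hpos : (0 : ℝ) < (1 / 2) ^ M := by positivity
  have h3 := intermediate_value_Icc' third_lt_log_two.le (sp_continuous 0 M).continuousOn
  obtain ⟨x, hx, hx1⟩ := h3 (show (1 : ℝ) ∈ Set.Icc (sp 0 M (Real.log 2)) (sp 0 M (1 / 3)) from
    ⟨by rw [h2]; linarith, h1⟩)
  refine ⟨x, hx.1, lt_of_le_of_ne hx.2 ?_, hx1⟩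
  rintro rfl
  rw [h2] at hx1
  linarith

/-! ### elementary inequalities -/

lemma exp_neg_quad {u : ℝ} (hu : 0 ≤ u) : |Real.exp (-u) - 1 + u| ≤ u ^ 2 / 2 := by
  have h1 := Real.add_one_le_exp (-u)
  have h2 := Real.quadratic_le_exp_of_nonneg hu
  have h3 : Real.exp (-u) ≤ 1 - u + u ^ 2 / 2 := by
    rw [Real.exp_neg]
    have hp : 0 < 1 + u + u ^ 2 / 2 := by positivity
    have h4 : (Real.exp u)⁻¹ ≤ (1 + u + u ^ 2 / 2)⁻¹ := inv_anti₀ hp h2
    refine h4.trans ?_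
    rw [inv_le_iff_one_le_mul₀ hp]
    nlinarith [sq_nonneg (u ^ 2)]
  rw [abs_le]
  constructor <;> nlinarith [sq_nonneg u]

lemma exp_neg_quad' (v : ℝ) : |Real.exp (-v) - 1 + v| ≤ v ^ 2 * max 1 (Real.exp (-v)) := by
  rcases le_total 0 v with hv | hv
  · refine (exp_neg_quad hv).trans ?_
    have : (1 : ℝ) ≤ max 1 (Real.exp (-v)) := le_max_left _ _
    nlinarith [sq_nonneg v]
  · have h1 := Real.add_one_le_exp (-v)
    have h2 := Real.add_one_le_exp v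
    have h3 : (1 - v) * (1 + v) ≤ (1 - v) * Real.exp v :=
      mul_le_mul_of_nonneg_left (by linarith) (by linarith)
    have h4 : Real.exp (-v) * Real.exp v = 1 := by rw [← Real.exp_add]; simp
    have h5 : Real.exp (-v) - 1 + v ≤ v ^ 2 * Real.exp (-v) := by
      have h6 := mul_le_mul_of_nonneg_left h3 (Real.exp_pos (-v)).le
      have h7 : Real.exp (-v) * ((1 - v) * Real.exp v) = 1 - v := by
        rw [mul_left_comm, h4, mul_one]
      rw [h7] at h6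
      nlinarith
    rw [abs_of_nonneg (by linarith)]
    refine h5.trans ?_
    exact mul_le_mul_of_nonneg_left (le_max_right _ _) (sq_nonneg v)

lemma term_lip {x t : ℝ} (hx : 1 / 3 ≤ x) (ht : 1 / 3 ≤ t) (j : ℕ) :
    |Real.exp (-(j * t)) - Real.exp (-(j * x))| ≤
      |t - x| * (j * Real.exp (-(j * (1 / 3)))) := by
  wlog h : t ≤ x generalizing x t
  · rw [abs_sub_comm, abs_sub_comm t x]
    exact this ht hx (by linarith)
  have hj : (0 : ℝ) ≤ j := Nat.cast_nonneg j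
  have h1 : Real.exp (-(j * x)) ≤ Real.exp (-(j * t)) :=
    Real.exp_le_exp.mpr (by nlinarith)
  rw [abs_of_nonneg (by linarith), abs_of_nonpos (by linarith)]
  have h2 : Real.exp (-(j * x)) = Real.exp (-(j * t)) * Real.exp (-(j * (x - t))) := by
    rw [← Real.exp_add]; congr 1; ring
  have h3 := Real.add_one_le_exp (-(j * (x - t)))
  have h4 := exp_third ht j
  have h5 : 0 ≤ j * (x - t) := mul_nonneg hj (by linarith)
  have h6 : Real.exp (-(j * t)) * (1 - Real.exp (-(j * (x - t)))) ≤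
      Real.exp (-(j * (1 / 3))) * (j * (x - t)) := by
    apply mul_le_mul h4 (by linarith) _ (Real.exp_pos _).le
    have : Real.exp (-(j * (x - t))) ≤ 1 := Real.exp_le_one_iff.mpr (by linarith)
    linarith
  rw [h2]
  nlinarith

lemma term_quad {x t : ℝ} (hx : 1 / 3 ≤ x) (ht : 1 / 3 ≤ t) (j : ℕ) :
    |Real.exp (-(j * t)) - Real.exp (-(j * x)) + (t - x) * (j * Real.exp (-(j * x)))| ≤
      (t - x) ^ 2 * ((j : ℝ) ^ 2 * Real.exp (-(j * (1 / 3)))) := by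
  have h2 : Real.exp (-(j * t)) = Real.exp (-(j * x)) * Real.exp (-(j * (t - x))) := by
    rw [← Real.exp_add]; congr 1; ring
  have e : Real.exp (-(j * t)) - Real.exp (-(j * x)) + (t - x) * (j * Real.exp (-(j * x))) =
      Real.exp (-(j * x)) * (Real.exp (-(j * (t - x))) - 1 + j * (t - x)) := by
    rw [h2]; ring
  rw [e, abs_mul, abs_of_pos (Real.exp_pos _)]
  have h3 := exp_neg_quad' (j * (t - x))
  have h4 : Real.exp (-(j * x)) * max 1 (Real.exp (-(j * (t - x)))) ≤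
      Real.exp (-(j * (1 / 3))) := by
    rw [mul_max_of_nonneg _ _ (Real.exp_pos _).le, mul_one, ← h2]
    exact max_le (exp_third hx j) (exp_third ht j)
  calc Real.exp (-(j * x)) * |Real.exp (-(j * (t - x))) - 1 + j * (t - x)|
      ≤ Real.exp (-(j * x)) * ((j * (t - x)) ^ 2 * max 1 (Real.exp (-(j * (t - x))))) :=
        mul_le_mul_of_nonneg_left h3 (Real.exp_pos _).le
    _ = (j * (t - x)) ^ 2 * (Real.exp (-(j * x)) * max 1 (Real.exp (-(j * (t - x))))) := by ring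
    _ ≤ (j * (t - x)) ^ 2 * Real.exp (-(j * (1 / 3))) :=
        mul_le_mul_of_nonneg_left h4 (sq_nonneg _)
    _ = _ := by ring

lemma key_small {ν y r u : ℝ} (hν : 1 ≤ ν) (hr : 1 ≤ r) (hy0 : 0 < y) (h : y ≤ 1 / 2)
    (hny : ν * y ≤ r) (hu : u = -(ν * (Real.log (1 - y) + y))) (hu0 : 0 ≤ u) :
    |Real.exp (-u) - (1 - ν * y ^ 2 / 2)| ≤ 6 / ν ^ 2 * r ^ 4 := by
  have hn0 : 0 < ν := by linarith
  have hny0 : 0 < ν * y := by positivity
  have hj34 : r ^ 3 ≤ r ^ 4 := pow_le_pow_right₀ hr (by norm_num)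
  have h1 := Real.abs_log_sub_add_sum_range_le (x := y) (by rw [abs_of_pos hy0]; linarith) 2
  rw [abs_of_pos hy0] at h1
  have h2 : y ^ (2 + 1) / (1 - y) ≤ 2 * y ^ 3 := by
    rw [div_le_iff₀ (by linarith)]
    have h0 : y ^ 3 * (1 / 2) ≤ y ^ 3 * (1 - y) :=
      mul_le_mul_of_nonneg_left (by linarith) (by positivity)
    have e : y ^ (2 + 1) = y ^ 3 := rfl
    rw [e]
    linarith
  have h3 : (∑ i ∈ range 2, y ^ (i + 1) / ((i : ℝ) + 1)) + Real.log (1 - y) =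
      y + y ^ 2 / 2 + Real.log (1 - y) := by
    rw [sum_range_succ, sum_range_one]
    norm_num
  rw [h3] at h1
  have h4 : |u - ν * y ^ 2 / 2| ≤ 2 * (ν * y ^ 3) := by
    have : u - ν * y ^ 2 / 2 = -(ν * (y + y ^ 2 / 2 + Real.log (1 - y))) := by rw [hu]; ring
    rw [this, abs_neg, abs_mul, abs_of_pos hn0]
    have := mul_le_mul_of_nonneg_left (h1.trans h2) hn0.le
    linarith
  have h5 : 2 * (ν * y ^ 3) ≤ ν * y ^ 2 := by
    have : ν * y ^ 2 * (2 * y) ≤ ν * y ^ 2 * 1 :=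
      mul_le_mul_of_nonneg_left (by linarith) (by positivity)
    linarith
  have h6 : u ≤ 3 / 2 * (ν * y ^ 2) := by
    have := le_abs_self (u - ν * y ^ 2 / 2)
    linarith
  have h7 := exp_neg_quad hu0
  have h8 : u ^ 2 ≤ (3 / 2 * (ν * y ^ 2)) ^ 2 := pow_le_pow_left₀ hu0 h6 2
  have h9 : (ν * y ^ 2) ^ 2 ≤ r ^ 4 / ν ^ 2 := by
    rw [le_div_iff₀ (by positivity)]
    calc (ν * y ^ 2) ^ 2 * ν ^ 2 = (ν * y) ^ 4 := by ring
      _ ≤ r ^ 4 := pow_le_pow_left₀ hny0.le hny 4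
  have h10 : ν * y ^ 3 ≤ r ^ 4 / ν ^ 2 := by
    rw [le_div_iff₀ (by positivity)]
    calc ν * y ^ 3 * ν ^ 2 = (ν * y) ^ 3 := by ring
      _ ≤ r ^ 3 := pow_le_pow_left₀ hny0.le hny 3
      _ ≤ r ^ 4 := hj34
  have e5 : Real.exp (-u) - (1 - ν * y ^ 2 / 2) =
      (Real.exp (-u) - 1 + u) - (u - ν * y ^ 2 / 2) := by ring
  rw [e5]
  refine (abs_sub _ _).trans ?_
  have e6 : 6 / ν ^ 2 * r ^ 4 = 6 * (r ^ 4 / ν ^ 2) := by ring
  rw [e6]
  have h11 : 0 ≤ r ^ 4 / ν ^ 2 := by positivity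
  have h12 : (3 / 2 * (ν * y ^ 2)) ^ 2 = 9 / 4 * (ν * y ^ 2) ^ 2 := by ring
  rw [h12] at h8
  linarith

lemma key_large {ν y r u N : ℝ} (hν : 1 ≤ ν) (hr : 1 ≤ r) (hy0 : 0 < y) (h : 1 / 2 ≤ y)
    (hy1 : y < 1) (hny : ν * y ≤ r) (hNy : N * y = r) (hN : ν ≤ N) (hu0 : 0 ≤ u) :
    |Real.exp (-u) - (1 - ν * y ^ 2 / 2)| ≤ 6 / ν ^ 2 * r ^ 4 := by
  have hn0 : 0 < ν := by linarith
  have hr0 : 0 < r := by linarith
  have h1 : Real.exp (-u) ≤ 1 := Real.exp_le_one_iff.mpr (by linarith)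
  have h2 := Real.exp_pos (-u)
  have h3 : |Real.exp (-u) - (1 - ν * y ^ 2 / 2)| ≤ 1 + ν * y ^ 2 / 2 := by
    have : 0 ≤ ν * y ^ 2 / 2 := by positivity
    rw [abs_le]
    constructor <;> linarith
  refine h3.trans ?_
  have h4 : N ≤ 2 * r := by
    have : N * (1 / 2) ≤ N * y := mul_le_mul_of_nonneg_left h (by linarith)
    linarith
  have h5 : ν ≤ 2 * r := hN.trans h4
  have h6 : ν * y ^ 2 ≤ r := by
    calc ν * y ^ 2 = (ν * y) * y := by ring
      _ ≤ r * 1 := mul_le_mul hny hy1.le hy0.le hr0.le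
      _ = r := mul_one _
  rw [div_mul_eq_mul_div, le_div_iff₀ (by positivity)]
  have h7 : ν ^ 2 ≤ (2 * r) ^ 2 := pow_le_pow_left₀ hn0.le h5 2
  have h9 : r ≤ r ^ 2 := by nlinarith
  have h8 : (1 + ν * y ^ 2 / 2) ≤ 3 / 2 * r ^ 2 := by linarith
  calc (1 + ν * y ^ 2 / 2) * ν ^ 2 ≤ (3 / 2 * r ^ 2) * (2 * r) ^ 2 :=
        mul_le_mul h8 h7 (by positivity) (by positivity)
    _ = 6 * r ^ 4 := by ring

/-- the expansion of one term -/
lemma term_est {n j N : ℕ} (hn : 1 ≤ n) (hj : 1 ≤ j) (hjN : j < N) (hnN : n ≤ N) :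
    |(1 - (j : ℝ) / N) ^ n - Real.exp (-(j * ((n : ℝ) / N))) *
      (1 - ((n : ℝ) / N) ^ 2 / (2 * n) * (j : ℝ) ^ 2)| ≤
      6 / (n : ℝ) ^ 2 * ((j : ℝ) ^ 4 * Real.exp (-(j * ((n : ℝ) / N)))) := by
  have hn' : (1 : ℝ) ≤ n := by exact_mod_cast hn
  have hj' : (1 : ℝ) ≤ j := by exact_mod_cast hj
  have hN' : (0 : ℝ) < N := by exact_mod_cast (by omega : 0 < N)
  have hjN' : (j : ℝ) < N := by exact_mod_cast hjN
  have hnN' : (n : ℝ) ≤ N := by exact_mod_cast hnN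
  obtain ⟨y, hy⟩ : ∃ y : ℝ, y = (j : ℝ) / N := ⟨_, rfl⟩
  have hy0 : 0 < y := by rw [hy]; positivity
  have hy1 : y < 1 := by rw [hy, div_lt_one hN']; exact hjN'
  have hNy : (N : ℝ) * y = j := by rw [hy]; field_simp
  have e1 : (j : ℝ) * ((n : ℝ) / N) = n * y := by rw [hy]; ring
  have e2 : ((n : ℝ) / N) ^ 2 / (2 * n) * (j : ℝ) ^ 2 = n * y ^ 2 / 2 := by
    rw [hy]; field_simp
  rw [← hy, e1, e2]
  have hlog : (1 - y) ^ n = Real.exp (n * Real.log (1 - y)) := by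
    rw [mul_comm, Real.exp_mul, Real.exp_log (by linarith), Real.rpow_natCast]
  obtain ⟨u, hu⟩ : ∃ u : ℝ, u = -(n * (Real.log (1 - y) + y)) := ⟨_, rfl⟩
  have hlog_le : Real.log (1 - y) ≤ -y := by
    have := Real.log_le_sub_one_of_pos (show 0 < 1 - y by linarith)
    linarith
  have hu0 : 0 ≤ u := by
    rw [hu]
    have : 0 ≤ (n : ℝ) * -(Real.log (1 - y) + y) := mul_nonneg (by linarith) (by linarith)
    linarith
  have e3 : (1 - y) ^ n = Real.exp (-(n * y)) * Real.exp (-u) := by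
    rw [hlog, ← Real.exp_add]; congr 1; rw [hu]; ring
  have e4 : (1 - y) ^ n - Real.exp (-(n * y)) * (1 - n * y ^ 2 / 2) =
      Real.exp (-(n * y)) * (Real.exp (-u) - (1 - n * y ^ 2 / 2)) := by
    rw [e3]; ring
  rw [e4, abs_mul, abs_of_pos (Real.exp_pos _)]
  have hny : (n : ℝ) * y ≤ j := by
    rw [← hNy]; exact mul_le_mul_of_nonneg_right hnN' hy0.le
  have key : |Real.exp (-u) - (1 - n * y ^ 2 / 2)| ≤ 6 / (n : ℝ) ^ 2 * (j : ℝ) ^ 4 := by
    rcases le_total y (1 / 2) with h | h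
    · exact key_small hn' hj' hy0 h hny hu hu0
    · exact key_large hn' hj' hy0 h hy1 hny hNy hnN' hu0
  calc Real.exp (-(n * y)) * |Real.exp (-u) - (1 - n * y ^ 2 / 2)|
      ≤ Real.exp (-(n * y)) * (6 / (n : ℝ) ^ 2 * (j : ℝ) ^ 4) :=
        mul_le_mul_of_nonneg_left key (Real.exp_pos _).le
    _ = _ := by ring

/-! ### estimates for the sums -/

lemma sp_mono {M : ℕ} (hM : 1 ≤ M) {x t : ℝ} (hxt : x ≤ t) (ht : t ≤ Real.log 2) :
    (t - x) / 2 ≤ sp 0 M x - sp 0 M t := by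
  have h1 : sp 0 M x - sp 0 M t =
      ∑ j ∈ Icc 1 M, (Real.exp (-(j * x)) - Real.exp (-(j * t))) := by
    unfold sp
    rw [← sum_sub_distrib]
    simp
  have h2 : ∑ j ∈ Icc 1 1, (Real.exp (-((j : ℕ) * x)) - Real.exp (-((j : ℕ) * t))) ≤
      ∑ j ∈ Icc 1 M, (Real.exp (-(j * x)) - Real.exp (-(j * t))) := by
    apply sum_le_sum_of_subset_of_nonneg
    · exact Icc_subset_Icc_right hM
    · intro j _ _
      have : Real.exp (-(j * t)) ≤ Real.exp (-(j * x)) := by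
        apply Real.exp_le_exp.mpr
        have : (0 : ℝ) ≤ j := Nat.cast_nonneg j
        nlinarith
      linarith
  rw [Icc_self, sum_singleton, Nat.cast_one, one_mul, one_mul] at h2
  have h3 : Real.exp (-x) = Real.exp (-t) * Real.exp (t - x) := by
    rw [← Real.exp_add]; congr 1; ring
  have h4 := Real.add_one_le_exp (t - x)
  have h5 := half_le_exp ht
  have h6 : Real.exp (-t) * (t - x) ≤ Real.exp (-t) * (Real.exp (t - x) - 1) :=
    mul_le_mul_of_nonneg_left (by linarith) (Real.exp_pos _).le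
  have h7 : 1 / 2 * (t - x) ≤ Real.exp (-t) * (t - x) :=
    mul_le_mul_of_nonneg_right h5 (by linarith)
  rw [h1]
  rw [h3] at h2
  linarith

lemma abs_sub_le_sp {M : ℕ} (hM : 1 ≤ M) {x t : ℝ} (hx : x ≤ Real.log 2)
    (ht : t ≤ Real.log 2) : |t - x| ≤ 2 * |sp 0 M t - sp 0 M x| := by
  rcases le_total x t with h | h
  · have h1 := sp_mono hM h ht
    rw [abs_of_nonneg (by linarith), abs_sub_comm]
    have := le_abs_self (sp 0 M x - sp 0 M t)
    linarith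
  · have h1 := sp_mono hM h hx
    rw [abs_of_nonpos (by linarith)]
    have := le_abs_self (sp 0 M t - sp 0 M x)
    linarith

lemma sp_lip {p : ℕ} (hp : p + 1 ≤ 4) (M : ℕ) {x t : ℝ} (hx : 1 / 3 ≤ x) (ht : 1 / 3 ≤ t) :
    |sp p M t - sp p M x| ≤ |t - x| * Sc := by
  have h1 : sp p M t - sp p M x =
      ∑ j ∈ Icc 1 M, (j : ℝ) ^ p * (Real.exp (-(j * t)) - Real.exp (-(j * x))) := by
    unfold sp
    rw [← sum_sub_distrib]
    apply sum_congr rfl
    intro j _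
    ring
  rw [h1]
  refine (abs_sum_le_sum_abs _ _).trans ?_
  have h2 : ∑ j ∈ Icc 1 M, |(j : ℝ) ^ p * (Real.exp (-(j * t)) - Real.exp (-(j * x)))| ≤
      ∑ j ∈ Icc 1 M, |t - x| * ((j : ℝ) ^ (p + 1) * Real.exp (-(j * (1 / 3)))) := by
    apply sum_le_sum
    intro j _
    rw [abs_mul, abs_of_nonneg (show (0 : ℝ) ≤ (j : ℝ) ^ p by positivity)]
    have h3 := mul_le_mul_of_nonneg_left (term_lip hx ht j) (show (0 : ℝ) ≤ (j : ℝ) ^ p by
      positivity)
    refine h3.trans (le_of_eq ?_)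
    ring
  refine h2.trans ?_
  rw [← mul_sum]
  exact mul_le_mul_of_nonneg_left (sum_sc_le hp M) (abs_nonneg _)

lemma sp_quad (M : ℕ) {x t : ℝ} (hx : 1 / 3 ≤ x) (ht : 1 / 3 ≤ t) :
    |sp 0 M t - sp 0 M x + (t - x) * sp 1 M x| ≤ (t - x) ^ 2 * Sc := by
  have h1 : sp 0 M t - sp 0 M x + (t - x) * sp 1 M x =
      ∑ j ∈ Icc 1 M, (Real.exp (-(j * t)) - Real.exp (-(j * x)) +
        (t - x) * (j * Real.exp (-(j * x)))) := by
    unfold sp
    rw [mul_sum, ← sum_sub_distrib, ← sum_add_distrib]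
    apply sum_congr rfl
    intro j _
    ring
  rw [h1]
  refine (abs_sum_le_sum_abs _ _).trans ?_
  refine (sum_le_sum fun j _ => term_quad hx ht j).trans ?_
  rw [← mul_sum]
  exact mul_le_mul_of_nonneg_left (sum_sc_le (by norm_num) M) (sq_nonneg _)

/-- the basic expansion -/
lemma sum_est {n M N : ℕ} (hn : 1 ≤ n) (hMN : M < N) (hnN : n ≤ N)
    (ht : 1 / 3 ≤ (n : ℝ) / N) (hsol : ∑ j ∈ Icc 1 M, (1 - (j : ℝ) / N) ^ n = 1) :
    |1 - sp 0 M ((n : ℝ) / N) + ((n : ℝ) / N) ^ 2 / (2 * n) * sp 2 M ((n : ℝ) / N)| ≤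
      6 / (n : ℝ) ^ 2 * Sc := by
  have h1 : 1 - sp 0 M ((n : ℝ) / N) + ((n : ℝ) / N) ^ 2 / (2 * n) * sp 2 M ((n : ℝ) / N) =
      ∑ j ∈ Icc 1 M, ((1 - (j : ℝ) / N) ^ n - Real.exp (-(j * ((n : ℝ) / N))) *
      (1 - ((n : ℝ) / N) ^ 2 / (2 * n) * (j : ℝ) ^ 2)) := by
    rw [sum_sub_distrib, hsol]
    unfold sp
    rw [mul_sum, sub_add, ← sum_sub_distrib]
    congr 1
    apply sum_congr rfl
    intro j _
    ring
  rw [h1]
  refine (abs_sum_le_sum_abs _ _).trans ?_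
  have h2 : ∑ j ∈ Icc 1 M, |(1 - (j : ℝ) / N) ^ n - Real.exp (-(j * ((n : ℝ) / N))) *
      (1 - ((n : ℝ) / N) ^ 2 / (2 * n) * (j : ℝ) ^ 2)| ≤
      ∑ j ∈ Icc 1 M, 6 / (n : ℝ) ^ 2 * ((j : ℝ) ^ 4 * Real.exp (-(j * (1 / 3)))) := by
    apply sum_le_sum
    intro j hj
    rw [mem_Icc] at hj
    refine (term_est hn hj.1 (by omega) hnN).trans ?_
    apply mul_le_mul_of_nonneg_left _ (by positivity)
    exact mul_le_mul_of_nonneg_left (exp_third ht j) (by positivity)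
  refine h2.trans ?_
  rw [← mul_sum]
  exact mul_le_mul_of_nonneg_left (sum_sc_le le_rfl M) (by positivity)

/-- the constant of the asymptotic formula -/
noncomputable def Ca : ℝ := 18 * (6 * Sc + 196 * Sc ^ 3 + 7 * Sc ^ 2 + 7 * Sc ^ 2)

lemma Ca_nonneg : 0 ≤ Ca := by
  have := Sc_nonneg
  unfold Ca
  positivity

/-- abstract form of the final computation -/
lemma final_alg {ν N x t s1 s2 s2t f S : ℝ} (hν : 1 ≤ ν) (hN : t * N = ν) (ht0 : 1 / 3 ≤ t)
    (ht1 : t ≤ 1) (hx0 : 1 / 3 ≤ x) (hs1 : 1 / 2 ≤ s1) (hS : 0 ≤ S)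
    (hs2 : 0 ≤ s2) (hs2S : s2 ≤ S) (hs2t : 0 ≤ s2t) (hs2tS : s2t ≤ S)
    (h1 : |1 - f + t ^ 2 / (2 * ν) * s2t| ≤ 6 / ν ^ 2 * S)
    (h2 : |t - x| ≤ 2 * |f - 1|)
    (h3 : |f - 1 + (t - x) * s1| ≤ (t - x) ^ 2 * S)
    (h4 : |s2t - s2| ≤ |t - x| * S) :
    |N - ν * (1 / x) - s2 / (2 * s1)| ≤
      18 * (6 * S + 196 * S ^ 3 + 7 * S ^ 2 + 7 * S ^ 2) / ν := by
  have hν0 : 0 < ν := by linarith
  have hx : 0 < x := by linarith
  have ht : 0 < t := by linarith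
  have hs : 0 < s1 := by linarith
  have hν2 : 1 / ν ^ 2 ≤ 1 / ν := by
    apply one_div_le_one_div_of_le hν0
    nlinarith
  -- first order
  have g1 : |f - 1| ≤ 7 * S / ν := by
    have e : f - 1 = t ^ 2 / (2 * ν) * s2t - (1 - f + t ^ 2 / (2 * ν) * s2t) := by ring
    rw [e]
    refine (abs_sub _ _).trans ?_
    have a1 : |t ^ 2 / (2 * ν) * s2t| ≤ 1 / ν * S := by
      rw [abs_of_nonneg (by positivity)]
      apply mul_le_mul _ hs2tS hs2t (by positivity)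
      have : t ^ 2 ≤ 1 := by nlinarith
      calc t ^ 2 / (2 * ν) ≤ 1 / (2 * ν) := by gcongr
        _ ≤ 1 / ν := by apply one_div_le_one_div_of_le hν0; linarith
    have a2 : 6 / ν ^ 2 * S ≤ 6 * (1 / ν) * S := by
      have : 6 / ν ^ 2 = 6 * (1 / ν ^ 2) := by ring
      rw [this]
      gcongr
    have a3 : 7 * S / ν = 1 / ν * S + 6 * (1 / ν) * S := by ring
    rw [a3]
    linarith
  have g2 : |t - x| ≤ 14 * S / ν := by
    have : 14 * S / ν = 2 * (7 * S / ν) := by ring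
    rw [this]
    linarith
  -- second order
  obtain ⟨E, hE⟩ : ∃ E : ℝ, E = (t - x) * s1 + t ^ 2 / (2 * ν) * s2 := ⟨_, rfl⟩
  have g3 : |E| ≤ (6 * S + 196 * S ^ 3 + 7 * S ^ 2) / ν ^ 2 := by
    have e : E = (1 - f + t ^ 2 / (2 * ν) * s2t) + (f - 1 + (t - x) * s1) -
        t ^ 2 / (2 * ν) * (s2t - s2) := by rw [hE]; ring
    rw [e]
    refine (abs_sub _ _).trans ?_
    have a0 := abs_add_le (1 - f + t ^ 2 / (2 * ν) * s2t) (f - 1 + (t - x) * s1)
    have a1 : (t - x) ^ 2 * S ≤ (14 * S / ν) ^ 2 * S := by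
      have : (t - x) ^ 2 ≤ (14 * S / ν) ^ 2 := by
        rw [← sq_abs (t - x)]
        exact pow_le_pow_left₀ (abs_nonneg _) g2 2
      exact mul_le_mul_of_nonneg_right this hS
    have a2 : |t ^ 2 / (2 * ν) * (s2t - s2)| ≤ 1 / (2 * ν) * (14 * S / ν * S) := by
      rw [abs_mul, abs_of_nonneg (show 0 ≤ t ^ 2 / (2 * ν) by positivity)]
      apply mul_le_mul _ _ (abs_nonneg _) (by positivity)
      · have : t ^ 2 ≤ 1 := by nlinarith
        gcongr
      · exact h4.trans (mul_le_mul_of_nonneg_right g2 hS)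
    have e2 : (6 * S + 196 * S ^ 3 + 7 * S ^ 2) / ν ^ 2 =
        6 / ν ^ 2 * S + (14 * S / ν) ^ 2 * S + 1 / (2 * ν) * (14 * S / ν * S) := by
      field_simp
      ring
    rw [e2]
    linarith
  have g4 : t * x * s1 * (N - ν * (1 / x) - s2 / (2 * s1)) =
      -(ν * E) + t * (t - x) * s2 / 2 := by
    rw [hE]
    have e1 : t * x * s1 * (N - ν * (1 / x) - s2 / (2 * s1)) =
        (t * N) * x * s1 - t * ν * s1 - t * x * s2 / 2 := by
      field_simp
    rw [e1, hN]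
    field_simp
    ring
  have g5 : |-(ν * E) + t * (t - x) * s2 / 2| ≤
      (6 * S + 196 * S ^ 3 + 7 * S ^ 2 + 7 * S ^ 2) / ν := by
    refine (abs_add_le _ _).trans ?_
    have a1 : |-(ν * E)| ≤ (6 * S + 196 * S ^ 3 + 7 * S ^ 2) / ν := by
      rw [abs_neg, abs_mul, abs_of_pos hν0]
      have := mul_le_mul_of_nonneg_left g3 hν0.le
      refine this.trans (le_of_eq ?_)
      field_simp
    have a2 : |t * (t - x) * s2 / 2| ≤ 7 * S ^ 2 / ν := by
      have : t * (t - x) * s2 / 2 = (t * s2 / 2) * (t - x) := by ring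
      rw [this, abs_mul, abs_of_nonneg (show 0 ≤ t * s2 / 2 by positivity)]
      have a3 : t * s2 / 2 ≤ S / 2 := by
        have : t * s2 ≤ 1 * S := mul_le_mul ht1 hs2S hs2 (by norm_num)
        linarith
      calc t * s2 / 2 * |t - x| ≤ S / 2 * (14 * S / ν) :=
            mul_le_mul a3 g2 (abs_nonneg _) (by positivity)
        _ = 7 * S ^ 2 / ν := by ring
    have e3 : (6 * S + 196 * S ^ 3 + 7 * S ^ 2 + 7 * S ^ 2) / ν =
        (6 * S + 196 * S ^ 3 + 7 * S ^ 2) / ν + 7 * S ^ 2 / ν := by ring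
    rw [e3]
    exact add_le_add a1 a2
  have g6 : 1 / 18 ≤ t * x * s1 := by
    have a1 : 1 / 3 * (1 / 3) ≤ t * x := mul_le_mul ht0 hx0 (by norm_num) ht.le
    have a2 : 1 / 3 * (1 / 3) * (1 / 2) ≤ t * x * s1 :=
      mul_le_mul a1 hs1 (by norm_num) (by positivity)
    linarith
  rw [← g4, abs_mul, abs_of_pos (show 0 < t * x * s1 by positivity)] at g5
  have g7 : 1 / 18 * |N - ν * (1 / x) - s2 / (2 * s1)| ≤
      t * x * s1 * |N - ν * (1 / x) - s2 / (2 * s1)| :=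
    mul_le_mul_of_nonneg_right g6 (abs_nonneg _)
  have e4 : 18 * (6 * S + 196 * S ^ 3 + 7 * S ^ 2 + 7 * S ^ 2) / ν =
      18 * ((6 * S + 196 * S ^ 3 + 7 * S ^ 2 + 7 * S ^ 2) / ν) := by ring
  rw [e4]
  linarith

lemma half_le_sp_one {M : ℕ} (hM : 1 ≤ M) {x : ℝ} (hx : x ≤ Real.log 2) : 1 / 2 ≤ sp 1 M x := by
  refine (half_le_exp hx).trans ?_
  have h : ∑ j ∈ Icc 1 1, ((j : ℕ) : ℝ) ^ 1 * Real.exp (-((j : ℕ) * x)) ≤ sp 1 M x := by
    apply sum_le_sum_of_subset_of_nonneg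
    · exact Icc_subset_Icc_right hM
    · intro j _ _
      positivity
  rw [Icc_self, sum_singleton] at h
  simpa using h

/-- **Asymptotic formula** for the solutions with `M` terms, uniform in `M`. -/
theorem asym {n M N : ℕ} (hn : 1 ≤ n) (hM : 2 ≤ M) (hMN : M < N)
    (hsol : ∑ j ∈ Icc 1 M, (1 - (j : ℝ) / N) ^ n = 1) {x : ℝ} (hx0 : 1 / 3 ≤ x)
    (hx1 : x < Real.log 2) (hx : sp 0 M x = 1) :
    |(N : ℝ) - n * (1 / x) - sp 2 M x / (2 * sp 1 M x)| ≤ Ca / n := by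
  have hN0 : (0 : ℝ) < N := by exact_mod_cast (by omega : 0 < N)
  have hn1 : (1 : ℝ) ≤ n := by exact_mod_cast hn
  have hjN : ∀ j ∈ Icc 1 M, (j : ℝ) / N < 1 := by
    intro j hj
    rw [mem_Icc] at hj
    rw [div_lt_one hN0]
    exact_mod_cast (by omega : j < N)
  -- upper bound for `t`
  have ht1 : (n : ℝ) / N < Real.log 2 := by
    have h1 : 1 ≤ sp 0 M ((n : ℝ) / N) := by
      rw [← hsol]
      apply sum_le_sum
      intro j hj
      have h2 := Real.add_one_le_exp (-((j : ℝ) / N))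
      have h3 : (1 - (j : ℝ) / N) ^ n ≤ Real.exp (-((j : ℝ) / N)) ^ n :=
        pow_le_pow_left₀ (by have := hjN j hj; linarith) (by linarith) n
      refine h3.trans (le_of_eq ?_)
      rw [← Real.exp_nat_mul, pow_zero, one_mul]
      congr 1
      ring
    by_contra hcon
    push Not at hcon
    have h4 : sp 0 M ((n : ℝ) / N) ≤ sp 0 M (Real.log 2) := by
      apply sum_le_sum
      intro j _
      apply mul_le_mul_of_nonneg_left _ (by positivity)
      apply Real.exp_le_exp.mpr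
      have : (0 : ℝ) ≤ j := Nat.cast_nonneg j
      nlinarith
    rw [sp_log_two] at h4
    have h5 : (0 : ℝ) < (1 / 2) ^ M := by positivity
    linarith
  -- lower bound for `t`
  have ht0 : 1 / 3 ≤ (n : ℝ) / N := by
    by_contra hcon
    push Not at hcon
    have h1 : ∑ j ∈ Icc (1 : ℕ) 2, (1 - (j : ℝ) / N) ^ n ≤ 1 := by
      refine le_of_le_of_eq ?_ hsol
      apply sum_le_sum_of_subset_of_nonneg
      · exact Icc_subset_Icc_right hM
      · intro j hj _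
        have := hjN j hj
        exact pow_nonneg (by linarith) n
    have h2 : Icc (1 : ℕ) 2 = ({1, 2} : Finset ℕ) := by decide
    rw [h2, sum_pair (by norm_num)] at h1
    have b1 := hjN 1 (mem_Icc.mpr ⟨le_rfl, by omega⟩)
    have b2 := hjN 2 (mem_Icc.mpr ⟨by omega, hM⟩)
    have h3 := one_add_mul_le_pow (a := -(((1 : ℕ) : ℝ) / N)) (by linarith) n
    have h4 := one_add_mul_le_pow (a := -(((2 : ℕ) : ℝ) / N)) (by linarith) n
    rw [← sub_eq_add_neg] at h3 h4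
    have h5 : (n : ℝ) * -(((1 : ℕ) : ℝ) / N) = -((n : ℝ) / N) := by push_cast; ring
    have h6 : (n : ℝ) * -(((2 : ℕ) : ℝ) / N) = -(2 * ((n : ℝ) / N)) := by push_cast; ring
    rw [h5] at h3
    rw [h6] at h4
    linarith
  have hlog := log_two_lt_one
  have hnN : n ≤ N := by
    have : (n : ℝ) / N < 1 := by linarith
    rw [div_lt_one hN0] at this
    exact_mod_cast this.le
  have hS := Sc_nonneg
  have q1 := sum_est hn hMN hnN ht0 hsol
  have q2 := abs_sub_le_sp (M := M) (by omega) hx1.le ht1.le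
  have q3 := sp_quad M hx0 ht0
  have q4 := sp_lip (p := 2) (by norm_num) M hx0 ht0
  rw [hx] at q2 q3
  have hfin := final_alg hn1 (N := (N : ℝ)) (by field_simp) ht0 (by linarith) hx0
    (half_le_sp_one (by omega) hx1.le) hS (sp_nonneg 2 M x) (sp_le (by norm_num) M hx0)
    (sp_nonneg 2 M _) (sp_le (by norm_num) M ht0) q1 q2 q3 q4
  exact hfin

end Pool.Agent.Lib.MP_d0b36d_nt
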