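import Mathlib

set_option autoImplicit false

namespace Pool.Agent.Lib.MP_d0b36d_nt

open Finset Filter

/-- a set of naturals in `[0, X]` with gaps at least `H` has at most `X / H + 1` elements -/
lemma card_le_of_gap {B : Finset ℕ} {X H : ℕ} (hH : 0 < H) (hB : ∀ b ∈ B, b ≤ X)
    (hgap : ∀ a ∈ B, ∀ b ∈ B, a < b → H ≤ b - a) : (B.card : ℝ) ≤ X / H + 1 := by
  have h1 : B.card ≤ (range (X / H + 1)).card := by
    apply card_le_card_of_injOn (fun b => b / H)
    · intro b hb
      simp only [coe_range, Set.mem_Iio]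
      exact Nat.lt_succ_of_le (Nat.div_le_div_right (hB b hb))
    · intro a ha b hb hab
      simp only at hab
      by_contra hne
      rcases Nat.lt_or_gt_of_ne hne with h | h
      · have h2 := hgap a ha b hb h
        have h3 : a + H ≤ b := by omega
        have h4 : (a + H) / H ≤ b / H := Nat.div_le_div_right h3
        rw [Nat.add_div_right _ hH] at h4
        omega
      · have h2 := hgap b hb a ha h
        have h3 : b + H ≤ a := by omega
        have h4 : (b + H) / H ≤ a / H := Nat.div_le_div_right h3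
        rw [Nat.add_div_right _ hH] at h4
        omega
  rw [card_range] at h1
  have h2 : (B.card : ℝ) ≤ ((X / H : ℕ) : ℝ) + 1 := by exact_mod_cast h1
  have h3 : ((X / H : ℕ) : ℝ) ≤ (X : ℝ) / H := Nat.cast_div_le
  linarith

/-- minimal gap up to a threshold `K` -/
lemma exists_min_gap (B : Finset ℕ) (X K : ℕ) (hK : 0 < K) (hB : ∀ b ∈ B, b ≤ X) :
    ∃ h : ℕ, 0 < h ∧ h ≤ K ∧ (B.card : ℝ) ≤ X / h + 1 ∧
      (h = K ∨ ∃ a ∈ B, ∃ b ∈ B, a < b ∧ b - a = h) := by
  classical
  by_cases hall : ∀ a ∈ B, ∀ b ∈ B, a < b → K ≤ b - a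
  · exact ⟨K, hK, le_rfl, card_le_of_gap hK hB hall, Or.inl rfl⟩
  · push Not at hall
    obtain ⟨a0, ha0, b0, hb0, hab0, hlt0⟩ := hall
    have hex : ∃ h : ℕ, ∃ a ∈ B, ∃ b ∈ B, a < b ∧ b - a = h := ⟨_, a0, ha0, b0, hb0, hab0, rfl⟩
    obtain ⟨a, ha, b, hb, hab, hh⟩ := Nat.find_spec hex
    refine ⟨Nat.find hex, by omega, ?_, ?_, Or.inr ⟨a, ha, b, hb, hab, hh⟩⟩
    · have := Nat.find_min' hex ⟨a0, ha0, b0, hb0, hab0, rfl⟩
      omega
    · apply card_le_of_gap (by omega) hB
      intro x hx y hy hxy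
      exact Nat.find_min' hex ⟨x, hx, y, hy, hxy, rfl⟩

/-- summing reciprocals under the pair condition -/
lemma sum_inv_le (w h : ℕ → ℝ) (hw : ∀ M, 0 < w M) (hh : ∀ M, 0 < h M) (S : Finset ℕ) :
    ∀ H : ℝ, 0 < H → (∀ M ∈ S, H ≤ h M) →
      (∀ M ∈ S, ∀ M' ∈ S, M < M' → w M ^ 2 ≤ h M * h M') →
      ∑ M ∈ S, 1 / h M ≤ 1 / H + ∑ M ∈ S, 2 / w M := by
  classical
  induction S using Finset.induction_on_min with
  | empty =>
    intro H hH _ _
    simp only [sum_empty, add_zero]
    positivity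
  | insert a s ha ih =>
    intro H hH h1 h2
    have hna : a ∉ s := fun h => lt_irrefl _ (ha a h)
    rw [sum_insert hna, sum_insert hna]
    have hwa := hw a
    have hha := hh a
    have hs2 : ∀ M ∈ s, ∀ M' ∈ s, M < M' → w M ^ 2 ≤ h M * h M' := fun M hM M' hM' =>
      h2 M (mem_insert_of_mem hM) M' (mem_insert_of_mem hM')
    have e2 : 2 / w a = 1 / w a + 1 / w a := by ring
    rcases le_or_gt (w a) (h a) with hc | hc
    · have h3 := ih H hH (fun M hM => h1 M (mem_insert_of_mem hM)) hs2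
      have h4 : 1 / h a ≤ 1 / w a := one_div_le_one_div_of_le hwa hc
      have h5 : 0 < 1 / w a := by positivity
      rw [e2]
      linarith
    · have h3 := ih (w a) hwa (fun M hM => by
        have h4 := h2 a (mem_insert_self _ _) M (mem_insert_of_mem hM) (ha M hM)
        have h5 := hh M
        by_contra hcon
        push Not at hcon
        nlinarith) hs2
      have h4 : 1 / h a ≤ 1 / H := one_div_le_one_div_of_le hH (h1 a (mem_insert_self _ _))
      have h5 : 0 < 1 / w a := by positivity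
      rw [e2]
      linarith

/-- uniform distance to the integers of the first multiples of an irrational number -/
lemma exists_dist {a : ℝ} (ha : Irrational a) (H : ℕ) :
    ∃ η : ℝ, 0 < η ∧ ∀ h : ℕ, 0 < h → h < H → ∀ p : ℤ, η < |h * a - p| := by
  induction H with
  | zero => exact ⟨1, one_pos, fun h _ hh => absurd hh (Nat.not_lt_zero _)⟩
  | succ H ih =>
    obtain ⟨η, hη, h1⟩ := ih
    by_cases hH : H = 0
    · subst hH
      exact ⟨1, one_pos, fun h h0 hh => by omega⟩
    have hpos : 0 < |(H : ℝ) * a - round ((H : ℝ) * a)| := by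
      rw [abs_pos, sub_ne_zero]
      have h2 : Irrational ((H : ℝ) * a) := by
        have := ha.natCast_mul hH
        exact this
      exact fun h => h2 ⟨round ((H : ℝ) * a), by
        rw [Rat.cast_intCast]; exact h.symm⟩
    refine ⟨min η (|(H : ℝ) * a - round ((H : ℝ) * a)| / 2), by positivity, ?_⟩
    intro h h0 hh p
    rcases Nat.lt_succ_iff_lt_or_eq.mp hh with h3 | h3
    · exact lt_of_le_of_lt (min_le_left _ _) (h1 h h0 h3 p)
    · subst h3
      have h4 := round_le ((h : ℝ) * a) p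
      refine lt_of_le_of_lt (min_le_right _ _) ?_
      linarith

end Pool.Agent.Lib.MP_d0b36d_nt
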