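import Mathlib
import Pool.Agent.Lib.MP_d0b36d_nt.Gap

set_option autoImplicit false

namespace Pool.Agent.Lib.MP_d0b36d_nt

open Finset Filter Topology

open Classical in
/-- the `n ≤ X` such that `n a + c` is within `δ` of an integer -/
noncomputable def bset (a c δ : ℝ) (X : ℕ) : Finset ℕ :=
  (Icc 1 X).filter (fun n => ∃ N : ℤ, |(N : ℝ) - n * a - c| ≤ δ)

lemma mem_bset {a c δ : ℝ} {X n : ℕ} :
    n ∈ bset a c δ X ↔ (1 ≤ n ∧ n ≤ X) ∧ ∃ N : ℤ, |(N : ℝ) - n * a - c| ≤ δ := by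
  classical
  simp [bset]

lemma bset_le {a c δ : ℝ} {X : ℕ} : ∀ b ∈ bset a c δ X, b ≤ X := fun _ hb =>
  (mem_bset.mp hb).1.2

lemma gap_bset {a c δ : ℝ} {X x y : ℕ} (hx : x ∈ bset a c δ X) (hy : y ∈ bset a c δ X)
    (hxy : x < y) : ∃ p : ℤ, |((y - x : ℕ) : ℝ) * a - p| ≤ 2 * δ := by
  obtain ⟨-, N, hN⟩ := mem_bset.mp hx
  obtain ⟨-, N', hN'⟩ := mem_bset.mp hy
  refine ⟨N' - N, ?_⟩
  rw [Nat.cast_sub hxy.le, Int.cast_sub]
  have e : ((y : ℝ) - x) * a - ((N' : ℝ) - N) =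
      ((N : ℝ) - x * a - c) - ((N' : ℝ) - y * a - c) := by ring
  rw [e]
  refine (abs_sub _ _).trans ?_
  linarith

lemma card_bset_le {a c δ : ℝ} {X H : ℕ} (hH : 0 < H)
    (h : ∀ h : ℕ, 0 < h → h < H → ∀ p : ℤ, 2 * δ < |h * a - p|) :
    ((bset a c δ X).card : ℝ) ≤ X / H + 1 := by
  apply card_le_of_gap hH bset_le
  intro x hx y hy hxy
  by_contra hcon
  push Not at hcon
  obtain ⟨p, hp⟩ := gap_bset hx hy hxy
  exact absurd hp (not_le.mpr (h (y - x) (by omega) hcon p))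

lemma tendsto_const_div (D : ℝ) : Tendsto (fun X : ℕ => D / (X : ℝ)) atTop (𝓝 0) :=
  tendsto_const_nhds.div_atTop tendsto_natCast_atTop_atTop

/-- range of fixed numbers of terms -/
lemma range_one {a : ℝ} (ha : Irrational a) (c D : ℝ) {ε : ℝ} (hε : 0 < ε) :
    ∀ᶠ X : ℕ in atTop, ((bset a c (D / X) X).card : ℝ) ≤ ε * X := by
  obtain ⟨H, hH⟩ := exists_nat_gt (2 / ε)
  have hH0 : 0 < H := by
    have : (0 : ℝ) < H := lt_trans (by positivity) hH
    exact_mod_cast this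
  obtain ⟨η, hη, hd⟩ := exists_dist ha H
  have h1 : ∀ᶠ X : ℕ in atTop, D / (X : ℝ) < η / 2 :=
    (tendsto_const_div D).eventually_lt_const (by positivity)
  have h2 : ∀ᶠ X : ℕ in atTop, 1 / (X : ℝ) < ε / 2 :=
    (tendsto_const_div 1).eventually_lt_const (by positivity)
  filter_upwards [h1, h2, eventually_gt_atTop 0] with X hX1 hX2 hX0
  have hX : (0 : ℝ) < X := by exact_mod_cast hX0
  have hHr : (0 : ℝ) < H := by exact_mod_cast hH0
  have h3 := card_bset_le (a := a) (c := c) (δ := D / X) (X := X) hH0 (fun h h0 hh p => by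
    have := hd h h0 hh p
    linarith)
  have h4 : (X : ℝ) / H ≤ ε / 2 * X := by
    rw [div_le_iff₀ hHr]
    rw [div_lt_iff₀ hε] at hH
    nlinarith
  have h5 : (1 : ℝ) ≤ ε / 2 * X := by
    rw [div_lt_iff₀ hX] at hX2
    linarith
  linarith

/-- the cut: the first `M` with `(1/2)^M < A / X` -/
noncomputable def cut (A : ℝ) (X : ℕ) : ℕ := sInf {M : ℕ | (1 / 2 : ℝ) ^ M < A / X}

lemma cut_nonempty {A : ℝ} (hA : 0 < A) {X : ℕ} (hX : 0 < X) :
    {M : ℕ | (1 / 2 : ℝ) ^ M < A / X}.Nonempty := by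
  have hX' : (0 : ℝ) < X := by exact_mod_cast hX
  obtain ⟨n, hn⟩ := exists_pow_lt_of_lt_one (show 0 < A / X by positivity)
    (show (1 / 2 : ℝ) < 1 by norm_num)
  exact ⟨n, hn⟩

lemma cut_spec {A : ℝ} (hA : 0 < A) {X : ℕ} (hX : 0 < X) :
    (1 / 2 : ℝ) ^ (cut A X) < A / X := Nat.sInf_mem (cut_nonempty hA hX)

lemma lt_cut {A : ℝ} {X M : ℕ} (h : M < cut A X) : A / X ≤ (1 / 2 : ℝ) ^ M := by
  have := Nat.notMem_of_lt_sInf h
  simpa using this

lemma pow_half_anti {M M' : ℕ} (h : M ≤ M') : (1 / 2 : ℝ) ^ M' ≤ (1 / 2 : ℝ) ^ M :=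
  pow_le_pow_of_le_one (by norm_num) (by norm_num) h

lemma tendsto_cut {A : ℝ} (hA : 0 < A) : Tendsto (cut A) atTop atTop := by
  rw [tendsto_atTop]
  intro b
  have h1 : ∀ᶠ X : ℕ in atTop, A / (X : ℝ) < (1 / 2 : ℝ) ^ b :=
    (tendsto_const_div A).eventually_lt_const (by positivity)
  filter_upwards [h1, eventually_gt_atTop 0] with X hX1 hX0
  by_contra hcon
  push Not at hcon
  have h2 := cut_spec hA hX0
  have h3 := pow_half_anti hcon.le
  linarith

lemma tendsto_cut_sq {A : ℝ} (hA : 0 < A) :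
    Tendsto (fun X : ℕ => ((cut A X : ℕ) : ℝ) ^ 2 / X) atTop (𝓝 0) := by
  have h1 : Tendsto (fun n : ℕ => (n : ℝ) ^ 2 * (1 / 2 : ℝ) ^ n) atTop (𝓝 0) :=
    tendsto_pow_const_mul_const_pow_of_abs_lt_one 2 (by rw [abs_of_pos] <;> norm_num)
  have h2 := (h1.comp (tendsto_cut hA)).const_mul (2 / A)
  rw [mul_zero] at h2
  refine tendsto_of_tendsto_of_tendsto_of_le_of_le' tendsto_const_nhds h2
    (Eventually.of_forall fun X => by positivity) ?_
  filter_upwards [(tendsto_cut hA).eventually_ge_atTop 1, eventually_gt_atTop 0] with X hX1 hX0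
  have hX : (0 : ℝ) < X := by exact_mod_cast hX0
  have h3 : A / X ≤ (1 / 2 : ℝ) ^ (cut A X - 1) := lt_cut (by omega)
  have h4 : (1 / 2 : ℝ) ^ (cut A X - 1) = 2 * (1 / 2 : ℝ) ^ (cut A X) := by
    conv_rhs => rw [show cut A X = (cut A X - 1) + 1 by omega, pow_succ]
    ring
  rw [h4] at h3
  simp only [Function.comp]
  have h5 : 1 / (X : ℝ) ≤ 2 / A * (1 / 2 : ℝ) ^ (cut A X) := by
    have : A * (1 / (X : ℝ)) ≤ 2 * (1 / 2 : ℝ) ^ (cut A X) := by
      rw [mul_one_div]; exact h3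
    rw [div_mul_eq_mul_div, le_div_iff₀ hA]
    linarith
  calc ((cut A X : ℕ) : ℝ) ^ 2 / X = ((cut A X : ℕ) : ℝ) ^ 2 * (1 / X) := by ring
    _ ≤ ((cut A X : ℕ) : ℝ) ^ 2 * (2 / A * (1 / 2 : ℝ) ^ (cut A X)) := by gcongr
    _ = _ := by ring

section

variable {α c : ℕ → ℝ} {αi ci C κ : ℝ}

/-- two good approximations for two different slopes -/
lemma pair_cond {u v : ℕ} (hu : 0 < u) (hv : 0 < v) {a a' G δ : ℝ} {p p' : ℤ}
    (hp : |(u : ℝ) * a - p| ≤ 2 * δ) (hp' : |(v : ℝ) * a' - p'| ≤ 2 * δ) (hδ : 0 ≤ δ)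
    (hδ4 : 4 * δ < a - a') (hG : a - a' ≤ G) (hsm : ((u : ℝ) + v) * (2 * δ) ≤ 1 / 2) :
    1 / 2 ≤ (u : ℝ) * v * G := by
  obtain ⟨x, hx⟩ : ∃ x : ℝ, x = (u : ℝ) := ⟨_, rfl⟩
  obtain ⟨y, hy⟩ : ∃ y : ℝ, y = (v : ℝ) := ⟨_, rfl⟩
  have hx1 : 1 ≤ x := by rw [hx]; exact_mod_cast hu
  have hy1 : 1 ≤ y := by rw [hy]; exact_mod_cast hv
  have e : x * y * (a - a') = y * (x * a - p) - x * (y * a' - p') +
      (((v : ℤ) * p - (u : ℤ) * p' : ℤ) : ℝ) := by
    push_cast
    rw [← hx, ← hy]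
    ring
  rw [← hx] at hp hsm ⊢
  rw [← hy] at hp' hsm ⊢
  obtain ⟨k, hk⟩ : ∃ k : ℤ, k = (v : ℤ) * p - (u : ℤ) * p' := ⟨_, rfl⟩
  rw [← hk] at e
  have b1 : |y * (x * a - p) - x * (y * a' - p')| ≤ (x + y) * (2 * δ) := by
    refine (abs_sub _ _).trans ?_
    rw [abs_mul, abs_mul, abs_of_pos (show 0 < x by linarith), abs_of_pos (show 0 < y by linarith)]
    have q1 := mul_le_mul_of_nonneg_left hp (show 0 ≤ y by linarith)
    have q2 := mul_le_mul_of_nonneg_left hp' (show 0 ≤ x by linarith)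
    linarith
  have hxy0 : 0 < x * y := by positivity
  by_cases hk0 : k = 0
  · exfalso
    rw [hk0, Int.cast_zero, add_zero] at e
    have b2 : x * y * (a - a') ≤ (x + y) * (2 * δ) := by
      rw [e]; exact (le_abs_self _).trans b1
    have hxy : x + y ≤ 2 * (x * y) := by nlinarith
    have b4 : (x + y) * (2 * δ) ≤ 2 * (x * y) * (2 * δ) :=
      mul_le_mul_of_nonneg_right hxy (by linarith)
    have b5 : x * y * (a - a') ≤ x * y * (4 * δ) := by linarith
    have b6 := le_of_mul_le_mul_left b5 hxy0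
    linarith
  · have b2 : (1 : ℝ) ≤ |(k : ℝ)| := by
      rw [← Int.cast_abs]
      exact_mod_cast Int.one_le_abs hk0
    have b3 : |(k : ℝ)| ≤ x * y * (a - a') + (x + y) * (2 * δ) := by
      have e' : (k : ℝ) = x * y * (a - a') - (y * (x * a - p) - x * (y * a' - p')) := by
        rw [e]; ring
      rw [e']
      refine (abs_sub _ _).trans ?_
      rw [abs_of_nonneg (mul_nonneg hxy0.le (by linarith))]
      linarith
    have b4 : x * y * (a - a') ≤ x * y * G := mul_le_mul_of_nonneg_left hG hxy0.le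
    linarith

/-- the main range -/
lemma range_two (hC : 0 < C) (hκ : 0 < κ) (hirr : Irrational αi)
    (h1 : ∀ M, 2 ≤ M → αi < α M ∧ α M - αi ≤ C * (1 / 2) ^ M)
    (h2 : ∀ M M', 2 ≤ M → M < M' → κ * (1 / 2) ^ M ≤ α M - α M')
    {D A : ℝ} (hD : 0 < D) (hA : 0 < A) (hAD : 4 * D < κ * A) {ε : ℝ} (hε : 0 < ε) :
    ∃ M0, 2 ≤ M0 ∧ ∀ᶠ X : ℕ in atTop,
      ∑ M ∈ Ico M0 (cut A X), ((bset (α M) (c M) (D / X) X).card : ℝ) ≤ ε * X := by
  obtain ⟨H, hH⟩ := exists_nat_gt (4 / ε)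
  have hH0 : 0 < H := by
    have : (0 : ℝ) < H := lt_trans (by positivity) hH
    exact_mod_cast this
  have hHr : (0 : ℝ) < H := by exact_mod_cast hH0
  obtain ⟨η, hη, hd⟩ := exists_dist hirr H
  -- the weights
  set s : ℝ := Real.sqrt 2 with hs
  have hs0 : 0 < s := Real.sqrt_pos.mpr (by norm_num)
  have hs2 : s ^ 2 = 2 := Real.sq_sqrt (by norm_num)
  have hs1 : 1 < s := by nlinarith
  set q : ℝ := Real.sqrt (2 * C) with hq
  have hq0 : 0 < q := Real.sqrt_pos.mpr (by positivity)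
  have hq2 : q ^ 2 = 2 * C := Real.sq_sqrt (by positivity)
  set w : ℕ → ℝ := fun M => s ^ M / q with hw
  have hw0 : ∀ M, 0 < w M := fun M => by positivity
  have hw2 : ∀ M, w M ^ 2 = 2 ^ M / (2 * C) := fun M => by
    rw [hw]
    simp only
    rw [div_pow, hq2, ← pow_mul, mul_comm M 2, pow_mul, hs2]
  have hr0 : 0 ≤ s⁻¹ := by positivity
  have hr1 : s⁻¹ < 1 := inv_lt_one_of_one_lt₀ hs1
  have htail : Tendsto (fun M0 : ℕ => 2 * q * (s⁻¹ ^ M0 / (1 - s⁻¹))) atTop (𝓝 0) := by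
    have := (((tendsto_pow_atTop_nhds_zero_of_lt_one hr0 hr1).div_const (1 - s⁻¹))).const_mul
      (2 * q)
    simpa using this
  have hhalf : Tendsto (fun M0 : ℕ => H * C * (1 / 2 : ℝ) ^ M0) atTop (𝓝 0) := by
    have := (tendsto_pow_atTop_nhds_zero_of_lt_one (show (0 : ℝ) ≤ 1 / 2 by norm_num)
      (by norm_num)).const_mul (H * C)
    simpa using this
  obtain ⟨M0, hM1, hM2, hM3⟩ := ((htail.eventually_lt_const (show (0 : ℝ) < ε / 4 by positivity)).and
    ((hhalf.eventually_lt_const (show (0 : ℝ) < η / 2 by positivity)).and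
      (eventually_ge_atTop 2))).exists
  refine ⟨M0, hM3, ?_⟩
  have e1 : ∀ᶠ X : ℕ in atTop, D / (X : ℝ) < η / 4 :=
    (tendsto_const_div D).eventually_lt_const (by positivity)
  have e2 : ∀ᶠ X : ℕ in atTop, 4 * D * (((cut A X : ℕ) : ℝ) ^ 2 / X) < 1 / 2 := by
    have := (tendsto_cut_sq hA).const_mul (4 * D)
    rw [mul_zero] at this
    exact this.eventually_lt_const (by norm_num)
  have e3 : ∀ᶠ X : ℕ in atTop, ((cut A X : ℕ) : ℝ) ^ 2 / X < ε / 4 :=
    (tendsto_cut_sq hA).eventually_lt_const (by positivity)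
  have e4 : ∀ᶠ X : ℕ in atTop, 1 / ((cut A X : ℕ) : ℝ) < ε / 4 :=
    ((tendsto_const_div 1).comp (tendsto_cut hA)).eventually_lt_const (by positivity)
  filter_upwards [e1, e2, e3, e4, eventually_gt_atTop 0,
    (tendsto_cut hA).eventually_ge_atTop 1] with X hX1 hX2 hX3 hX4 hX0 hX5
  have hX : (0 : ℝ) < X := by exact_mod_cast hX0
  set L := cut A X with hL
  have hLr : (1 : ℝ) ≤ L := by exact_mod_cast hX5
  have hK : 0 < L ^ 2 := by positivity
  choose h hpos hle hcard hor using fun M => exists_min_gap (bset (α M) (c M) (D / X) X) X (L ^ 2)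
    hK bset_le
  have hposr : ∀ M, (0 : ℝ) < h M := fun M => by exact_mod_cast hpos M
  have hler : ∀ M, (h M : ℝ) ≤ (L : ℝ) ^ 2 := fun M => by exact_mod_cast hle M
  set S := (Ico M0 L).filter (fun M => h M ≠ L ^ 2) with hS
  have hSp : ∀ M ∈ S, 2 ≤ M ∧ M0 ≤ M ∧ M < L ∧ ∃ p : ℤ, |(h M : ℝ) * α M - p| ≤ 2 * (D / X) := by
    intro M hM
    rw [hS, mem_filter, mem_Ico] at hM
    refine ⟨by omega, hM.1.1, hM.1.2, ?_⟩
    rcases hor M with h3 | ⟨a, ha, b, hb, hab, h3⟩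
    · exact absurd h3 hM.2
    · rw [← h3]
      exact gap_bset ha hb hab
  have hSum : ∑ M ∈ S, 1 / (h M : ℝ) ≤ 1 / H + ∑ M ∈ S, 2 / w M := by
    apply sum_inv_le w (fun M => (h M : ℝ)) hw0 hposr S H hHr
    · intro M hM
      obtain ⟨m2, m0, mL, p, hp⟩ := hSp M hM
      by_contra hcon
      push Not at hcon
      have hcon' : h M < H := by exact_mod_cast hcon
      have h3 := hd (h M) (hpos M) hcon' p
      have h4 : |(h M : ℝ) * αi - p| ≤ |(h M : ℝ) * α M - p| + (h M : ℝ) * (α M - αi) := by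
        have e : (h M : ℝ) * αi - p = ((h M : ℝ) * α M - p) - (h M : ℝ) * (α M - αi) := by ring
        rw [e]
        refine (abs_sub _ _).trans ?_
        rw [abs_of_nonneg (a := (h M : ℝ) * (α M - αi))]
        have := (h1 M m2).1
        have := hposr M
        nlinarith
      have h5 : (h M : ℝ) * (α M - αi) ≤ H * C * (1 / 2 : ℝ) ^ M0 := by
        have h6 := (h1 M m2).2
        have h6' := (h1 M m2).1
        have h7 := pow_half_anti m0
        calc (h M : ℝ) * (α M - αi) ≤ H * (C * (1 / 2 : ℝ) ^ M) := by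
              apply mul_le_mul hcon.le h6 (by linarith) hHr.le
          _ ≤ H * (C * (1 / 2 : ℝ) ^ M0) := by gcongr
          _ = _ := by ring
      linarith
    · intro M hM M' hM' hMM
      obtain ⟨m2, m0, mL, p, hp⟩ := hSp M hM
      obtain ⟨m2', m0', mL', p', hp'⟩ := hSp M' hM'
      rw [hw2]
      have hd1 := h2 M M' m2 hMM
      have hd2 : α M - α M' ≤ C * (1 / 2) ^ M := by
        have := (h1 M m2).2
        have := (h1 M' m2').1
        linarith
      have hA1 : A / X ≤ (1 / 2 : ℝ) ^ M := lt_cut mL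
      have hDX : 0 ≤ D / X := by positivity
      have hδ4 : 4 * (D / X) < α M - α M' := by
        have b1 : κ * (A / X) ≤ κ * (1 / 2 : ℝ) ^ M := mul_le_mul_of_nonneg_left hA1 hκ.le
        have b2 : 4 * (D / X) < κ * (A / X) := by
          rw [mul_div_assoc', mul_div_assoc']
          exact div_lt_div_of_pos_right hAD hX
        linarith
      have hsm : ((h M : ℝ) + h M') * (2 * (D / X)) ≤ 1 / 2 := by
        have b1 : ((h M : ℝ) + h M') * (2 * (D / X)) ≤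
            ((L : ℝ) ^ 2 + (L : ℝ) ^ 2) * (2 * (D / X)) :=
          mul_le_mul_of_nonneg_right (add_le_add (hler M) (hler M')) (by positivity)
        have b2 : ((L : ℝ) ^ 2 + (L : ℝ) ^ 2) * (2 * (D / X)) = 4 * D * ((L : ℝ) ^ 2 / X) := by
          ring
        rw [b2] at b1
        exact b1.trans hX2.le
      have b5 := pair_cond (hpos M) (hpos M') hp hp' hDX hδ4 hd2 hsm
      have hpw : (1 / 2 : ℝ) ^ M = 1 / 2 ^ M := by rw [one_div, inv_pow, one_div]
      rw [hpw] at b5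
      have h2M : (0 : ℝ) < 2 ^ M := by positivity
      rw [div_le_iff₀ (by positivity)]
      have b6 : (h M : ℝ) * h M' * (C * (1 / 2 ^ M)) = (h M : ℝ) * h M' * C / 2 ^ M := by ring
      rw [b6, le_div_iff₀ h2M] at b5
      linarith
  have hSw : ∑ M ∈ S, 2 / w M ≤ ε / 4 := by
    have b1 : ∑ M ∈ S, 2 / w M ≤ ∑ M ∈ Ico M0 L, 2 / w M := by
      apply sum_le_sum_of_subset_of_nonneg
      · rw [hS]; exact filter_subset _ _
      · intro i _ _
        have := hw0 i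
        positivity
    have b2 : ∑ M ∈ Ico M0 L, 2 / w M = 2 * q * ∑ M ∈ Ico M0 L, s⁻¹ ^ M := by
      rw [mul_sum]
      apply sum_congr rfl
      intro M _
      rw [hw]
      simp only
      rw [inv_pow]
      field_simp
    have b3 := geom_sum_Ico_le_of_lt_one hr0 hr1 (m := M0) (n := L)
    have b4 : 2 * q * ∑ M ∈ Ico M0 L, s⁻¹ ^ M ≤ 2 * q * (s⁻¹ ^ M0 / (1 - s⁻¹)) := by gcongr
    linarith
  have hH4 : 1 / (H : ℝ) ≤ ε / 4 := by
    rw [div_le_iff₀ hHr]
    rw [div_lt_iff₀ hε] at hH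
    linarith
  -- the total
  have hT : ∑ M ∈ Ico M0 L, 1 / (h M : ℝ) ≤ 1 / L + (ε / 4 + ε / 4) := by
    rw [← sum_filter_add_sum_filter_not (Ico M0 L) (fun M => h M ≠ L ^ 2)]
    have b1 : ∑ M ∈ (Ico M0 L).filter (fun M => ¬ (h M ≠ L ^ 2)), 1 / (h M : ℝ) ≤ 1 / L := by
      have b2 : ∑ M ∈ (Ico M0 L).filter (fun M => ¬ (h M ≠ L ^ 2)), 1 / (h M : ℝ) ≤
          ∑ M ∈ (Ico M0 L).filter (fun M => ¬ (h M ≠ L ^ 2)), 1 / (L : ℝ) ^ 2 := by
        apply sum_le_sum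
        intro M hM
        rw [mem_filter, not_not] at hM
        rw [hM.2]
        push_cast
        exact le_rfl
      refine b2.trans ?_
      rw [sum_const, nsmul_eq_mul]
      have b3 : (((Ico M0 L).filter (fun M => ¬ (h M ≠ L ^ 2))).card : ℝ) ≤ L := by
        have := card_filter_le (Ico M0 L) (fun M => ¬ (h M ≠ L ^ 2))
        rw [Nat.card_Ico] at this
        have h3 : ((Ico M0 L).filter (fun M => ¬ (h M ≠ L ^ 2))).card ≤ L := by omega
        exact_mod_cast h3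
      have hL0 : (0 : ℝ) < L := by linarith
      calc _ ≤ (L : ℝ) * (1 / (L : ℝ) ^ 2) := by gcongr
        _ = 1 / L := by field_simp
    have b2 : ∑ M ∈ (Ico M0 L).filter (fun M => h M ≠ L ^ 2), 1 / (h M : ℝ) ≤ ε / 4 + ε / 4 :=
      hSum.trans (add_le_add hH4 hSw)
    linarith
  have hLX : (L : ℝ) ≤ ε / 4 * X := by
    have b1 : (L : ℝ) ≤ (L : ℝ) ^ 2 := by nlinarith
    rw [div_lt_iff₀ hX] at hX3
    linarith
  calc ∑ M ∈ Ico M0 L, ((bset (α M) (c M) (D / X) X).card : ℝ)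
      ≤ ∑ M ∈ Ico M0 L, ((X : ℝ) / h M + 1) := sum_le_sum fun M _ => hcard M
    _ = X * ∑ M ∈ Ico M0 L, 1 / (h M : ℝ) + (Ico M0 L).card := by
        rw [sum_add_distrib, mul_sum, sum_const, nsmul_eq_mul, mul_one]
        congr 1
        apply sum_congr rfl
        intro M _
        ring
    _ ≤ X * (1 / L + (ε / 4 + ε / 4)) + L := by
        have : ((Ico M0 L).card : ℝ) ≤ L := by
          rw [Nat.card_Ico]
          exact_mod_cast Nat.sub_le _ _
        gcongr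
    _ ≤ ε * X := by nlinarith

/-- boundedly many numbers of terms next to the cut -/
lemma range_three (hC : 0 < C) (hirr : Irrational αi)
    (h1 : ∀ M, 2 ≤ M → αi < α M ∧ α M - αi ≤ C * (1 / 2) ^ M)
    {D A : ℝ} (hA : 0 < A) (R : ℕ) {ε : ℝ} (hε : 0 < ε) :
    ∀ᶠ X : ℕ in atTop,
      ∑ M ∈ Ico (cut A X) (cut A X + R), ((bset (α M) (c M) (D / X) X).card : ℝ) ≤ ε * X := by
  obtain ⟨H, hH⟩ := exists_nat_gt (2 * (R + 1) / ε)
  have hH0 : 0 < H := by
    have : (0 : ℝ) < H := lt_trans (by positivity) hH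
    exact_mod_cast this
  have hHr : (0 : ℝ) < H := by exact_mod_cast hH0
  obtain ⟨η, hη, hd⟩ := exists_dist hirr H
  have e1 : ∀ᶠ X : ℕ in atTop, (2 * D + H * C * A) / (X : ℝ) < η :=
    (tendsto_const_div _).eventually_lt_const hη
  have e2 : ∀ᶠ X : ℕ in atTop, (R + 1 : ℝ) / (X : ℝ) < ε / 2 :=
    (tendsto_const_div _).eventually_lt_const (by positivity)
  filter_upwards [e1, e2, eventually_gt_atTop 0, (tendsto_cut hA).eventually_ge_atTop 2] with
    X hX1 hX2 hX0 hX3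
  have hX : (0 : ℝ) < X := by exact_mod_cast hX0
  have hone : ∀ M ∈ Ico (cut A X) (cut A X + R),
      ((bset (α M) (c M) (D / X) X).card : ℝ) ≤ X / H + 1 := by
    intro M hM
    rw [mem_Ico] at hM
    apply card_bset_le hH0
    intro h h0 hh p
    have h3 := hd h h0 hh p
    have hp1 : (0 : ℝ) < h := by exact_mod_cast h0
    have hp2 : (h : ℝ) ≤ H := by exact_mod_cast hh.le
    obtain ⟨g1, g2⟩ := h1 M (by omega)
    have g3 : (1 / 2 : ℝ) ^ M ≤ A / X := (pow_half_anti hM.1).trans (cut_spec hA hX0).le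
    have h4 : |(h : ℝ) * αi - p| ≤ |(h : ℝ) * α M - p| + (h : ℝ) * (α M - αi) := by
      have e : (h : ℝ) * αi - p = ((h : ℝ) * α M - p) - (h : ℝ) * (α M - αi) := by ring
      rw [e]
      refine (abs_sub _ _).trans ?_
      rw [abs_of_nonneg (a := (h : ℝ) * (α M - αi))]
      nlinarith
    have h5 : (h : ℝ) * (α M - αi) ≤ H * (C * (A / X)) := by
      apply mul_le_mul hp2 _ (by linarith) hHr.le
      exact g2.trans (by gcongr)
    have h6 : (2 * D + H * C * A) / (X : ℝ) = 2 * (D / X) + H * (C * (A / X)) := by ring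
    rw [h6] at hX1
    linarith
  have h3 : ∑ M ∈ Ico (cut A X) (cut A X + R), ((bset (α M) (c M) (D / X) X).card : ℝ) ≤
      R * (X / H + 1) := by
    refine (sum_le_sum hone).trans ?_
    rw [sum_const, nsmul_eq_mul, Nat.card_Ico]
    simp
  refine h3.trans ?_
  have h4 : (R : ℝ) * (X / H) ≤ ε / 2 * X := by
    rw [div_lt_iff₀ hε] at hH
    rw [mul_div_assoc', div_le_iff₀ hHr]
    nlinarith
  have h5 : (R : ℝ) ≤ ε / 2 * X := by
    rw [div_lt_iff₀ hX] at hX2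
    linarith
  linarith

/-- all large numbers of terms together -/
lemma range_four (hC : 0 < C) (hirr : Irrational αi)
    (h1 : ∀ M, 2 ≤ M → αi < α M ∧ α M - αi ≤ C * (1 / 2) ^ M)
    (hc : Tendsto c atTop (𝓝 ci))
    {D A : ℝ} (hA : 0 < A) {ε : ℝ} (hε : 0 < ε) :
    ∃ R : ℕ, ∀ᶠ X : ℕ in atTop, ∃ B : Finset ℕ, (B.card : ℝ) ≤ ε * X ∧
      ∀ M, cut A X + R ≤ M → bset (α M) (c M) (D / X) X ⊆ B := by
  obtain ⟨H, hH⟩ := exists_nat_gt (2 / ε)
  have hH0 : 0 < H := by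
    have : (0 : ℝ) < H := lt_trans (by positivity) hH
    exact_mod_cast this
  have hHr : (0 : ℝ) < H := by exact_mod_cast hH0
  obtain ⟨η, hη, hd⟩ := exists_dist hirr H
  have hhalf : Tendsto (fun R : ℕ => C * A * (1 / 2 : ℝ) ^ R) atTop (𝓝 0) := by
    have := (tendsto_pow_atTop_nhds_zero_of_lt_one (show (0 : ℝ) ≤ 1 / 2 by norm_num)
      (by norm_num)).const_mul (C * A)
    simpa using this
  obtain ⟨R, hR⟩ := (hhalf.eventually_lt_const (show (0 : ℝ) < η / 8 by positivity)).exists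
  have hc' : ∀ᶠ M in atTop, |c M - ci| < η / 8 := by
    have := (tendsto_sub_nhds_zero_iff.mpr hc).abs
    rw [abs_zero] at this
    exact this.eventually_lt_const (by positivity)
  obtain ⟨M1, hM1⟩ := eventually_atTop.mp hc'
  refine ⟨R, ?_⟩
  have e1 : ∀ᶠ X : ℕ in atTop, D / (X : ℝ) < η / 8 :=
    (tendsto_const_div _).eventually_lt_const (by positivity)
  have e2 : ∀ᶠ X : ℕ in atTop, 1 / (X : ℝ) < ε / 2 :=
    (tendsto_const_div 1).eventually_lt_const (by positivity)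
  filter_upwards [e1, e2, eventually_gt_atTop 0,
    (tendsto_cut hA).eventually_ge_atTop (max 2 M1)] with X hX1 hX2 hX0 hX3
  have hX : (0 : ℝ) < X := by exact_mod_cast hX0
  refine ⟨bset αi ci (3 * (η / 8)) X, ?_, ?_⟩
  · have h3 := card_bset_le (a := αi) (c := ci) (δ := 3 * (η / 8)) (X := X) hH0
      (fun h h0 hh p => by
        have := hd h h0 hh p
        linarith)
    have h4 : (X : ℝ) / H ≤ ε / 2 * X := by
      rw [div_le_iff₀ hHr]
      rw [div_lt_iff₀ hε] at hH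
      nlinarith
    have h5 : (1 : ℝ) ≤ ε / 2 * X := by
      rw [div_lt_iff₀ hX] at hX2
      linarith
    linarith
  · intro M hM n hn
    obtain ⟨⟨n1, n2⟩, N, hN⟩ := mem_bset.mp hn
    refine mem_bset.mpr ⟨⟨n1, n2⟩, N, ?_⟩
    have hM2 : 2 ≤ M := by
      have := le_max_left 2 M1
      omega
    have hMM : M1 ≤ M := by
      have := le_max_right 2 M1
      omega
    obtain ⟨g1, g2⟩ := h1 M hM2
    have hnr : (n : ℝ) ≤ X := by exact_mod_cast n2
    have hn0 : (0 : ℝ) ≤ n := by positivity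
    have g3 : (1 / 2 : ℝ) ^ M ≤ A / X * (1 / 2) ^ R := by
      refine (pow_half_anti hM).trans ?_
      rw [pow_add]
      have := (cut_spec hA hX0).le
      gcongr
    have g4 : (n : ℝ) * (α M - αi) ≤ C * A * (1 / 2 : ℝ) ^ R := by
      calc (n : ℝ) * (α M - αi) ≤ X * (C * (A / X * (1 / 2) ^ R)) := by
            apply mul_le_mul hnr _ (by linarith) hX.le
            exact g2.trans (by gcongr)
        _ = _ := by field_simp
    have g5 := hM1 M hMM
    have e : (N : ℝ) - n * αi - ci = ((N : ℝ) - n * α M - c M) + n * (α M - αi) + (c M - ci) := by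
      ring
    rw [e]
    refine (abs_add_le _ _).trans ?_
    refine (add_le_add_left (abs_add_le _ _) _).trans ?_
    rw [abs_of_nonneg (a := (n : ℝ) * (α M - αi)) (mul_nonneg hn0 (by linarith))]
    linarith

open Classical in
/-- **Density zero, abstract form.** -/
theorem density_zero (hC : 0 < C) (hκ : 0 < κ) (hirr : Irrational αi)
    (hirr' : ∀ M, 2 ≤ M → Irrational (α M))
    (h1 : ∀ M, 2 ≤ M → αi < α M ∧ α M - αi ≤ C * (1 / 2) ^ M)
    (h2 : ∀ M M', 2 ≤ M → M < M' → κ * (1 / 2) ^ M ≤ α M - α M')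
    (hc : Tendsto c atTop (𝓝 ci)) {D : ℝ} (hD : 0 < D) {ε : ℝ} (hε : 0 < ε) :
    ∀ᶠ X : ℕ in atTop, (((Icc 1 X).filter (fun n : ℕ => ∃ M, 2 ≤ M ∧ ∃ N : ℤ,
      |(N : ℝ) - (n : ℝ) * α M - c M| ≤ D / (X : ℝ))).card : ℝ) ≤ ε * X := by
  set A : ℝ := (4 * D + 1) / κ with hA'
  have hA : 0 < A := by positivity
  have hAD : 4 * D < κ * A := by
    rw [hA', mul_div_cancel₀ _ hκ.ne']
    linarith
  obtain ⟨M0, hM0, hII⟩ := range_two (c := c) hC hκ hirr h1 h2 hD hA hAD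
    (show (0 : ℝ) < ε / 4 by positivity)
  obtain ⟨R, hIV⟩ := range_four hC hirr h1 hc (D := D) hA (show (0 : ℝ) < ε / 4 by positivity)
  have hIII := range_three (c := c) (D := D) hC hirr h1 hA R (show (0 : ℝ) < ε / 4 by positivity)
  have hI : ∀ᶠ X : ℕ in atTop, ∀ M ∈ Ico 2 M0,
      ((bset (α M) (c M) (D / X) X).card : ℝ) ≤ ε / (4 * (M0 + 1)) * X := by
    rw [eventually_all_finset]
    intro M hM
    rw [mem_Ico] at hM
    exact range_one (hirr' M hM.1) _ _ (by positivity)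
  filter_upwards [hI, hII, hIII, hIV] with X q1 q2 q3 ⟨B, q4, q5⟩
  have hsub : (Icc 1 X).filter (fun n : ℕ => ∃ M, 2 ≤ M ∧ ∃ N : ℤ,
      |(N : ℝ) - (n : ℝ) * α M - c M| ≤ D / (X : ℝ)) ⊆
      (((Ico 2 M0).biUnion fun M => bset (α M) (c M) (D / X) X) ∪
      ((Ico M0 (cut A X)).biUnion fun M => bset (α M) (c M) (D / X) X)) ∪
      (((Ico (cut A X) (cut A X + R)).biUnion fun M => bset (α M) (c M) (D / X) X) ∪ B) := by
    intro n hn
    rw [mem_filter, mem_Icc] at hn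
    obtain ⟨hn1, M, hM, hN⟩ := hn
    have hmem : n ∈ bset (α M) (c M) (D / X) X := mem_bset.mpr ⟨hn1, hN⟩
    rw [mem_union, mem_union, mem_union, mem_biUnion, mem_biUnion, mem_biUnion]
    by_cases a1 : M < M0
    · exact Or.inl (Or.inl ⟨M, mem_Ico.mpr ⟨hM, a1⟩, hmem⟩)
    by_cases a2 : M < cut A X
    · exact Or.inl (Or.inr ⟨M, mem_Ico.mpr ⟨by omega, a2⟩, hmem⟩)
    by_cases a3 : M < cut A X + R
    · exact Or.inr (Or.inl ⟨M, mem_Ico.mpr ⟨by omega, a3⟩, hmem⟩)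
    · exact Or.inr (Or.inr (q5 M (by omega) hmem))
  have hcard := (card_le_card hsub).trans ((card_union_le _ _).trans
    (add_le_add (card_union_le _ _) (card_union_le _ _)))
  have c1 : ((((Ico 2 M0).biUnion fun M => bset (α M) (c M) (D / X) X).card : ℕ) : ℝ) ≤
      ε / 4 * X := by
    have b1 : ((((Ico 2 M0).biUnion fun M => bset (α M) (c M) (D / X) X).card : ℕ) : ℝ) ≤
        ∑ M ∈ Ico 2 M0, ((bset (α M) (c M) (D / X) X).card : ℝ) := by
      exact_mod_cast card_biUnion_le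
    refine b1.trans ((sum_le_sum q1).trans ?_)
    rw [sum_const, nsmul_eq_mul]
    have b2 : ((Ico 2 M0).card : ℝ) ≤ M0 + 1 := by
      rw [Nat.card_Ico]
      have : M0 - 2 ≤ M0 + 1 := by omega
      exact_mod_cast this
    have b3 : (0 : ℝ) < M0 + 1 := by positivity
    calc ((Ico 2 M0).card : ℝ) * (ε / (4 * (M0 + 1)) * X)
        ≤ (M0 + 1) * (ε / (4 * (M0 + 1)) * X) := by gcongr
      _ = ε / 4 * X := by field_simp
  have c2 : ((((Ico M0 (cut A X)).biUnion fun M => bset (α M) (c M) (D / X) X).card : ℕ) : ℝ) ≤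
      ε / 4 * X := by
    refine le_trans ?_ q2
    exact_mod_cast card_biUnion_le
  have c3 : ((((Ico (cut A X) (cut A X + R)).biUnion
      fun M => bset (α M) (c M) (D / X) X).card : ℕ) : ℝ) ≤ ε / 4 * X := by
    refine le_trans ?_ q3
    exact_mod_cast card_biUnion_le
  refine (Nat.cast_le (α := ℝ).2 hcard).trans ?_
  rw [Nat.cast_add, Nat.cast_add, Nat.cast_add]
  linarith

end

end Pool.Agent.Lib.MP_d0b36d_nt
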