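import Mathlib
import Pool.Agent.Lib.MP_c82530_nt.LWMain
import Pool.Agent.Lib.MP_d0b36d_nt.Asym
import Pool.Agent.Lib.MP_d0b36d_nt.Dens

/-!
MP_d0b36d_nt: the roots `x_M` of `e^{-x} + ... + e^{-Mx} = 1` and the density theorem.
-/

set_option autoImplicit false

namespace Pool.Agent.Lib.MP_d0b36d_nt

open Finset Filter Topology

lemma sp_geom (M : ℕ) (x : ℝ) :
    (Real.exp x - 1) * sp 0 M x = 1 - Real.exp (-(M * x)) := by
  unfold sp
  simp only [pow_zero, one_mul]
  induction M with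
  | zero => simp
  | succ M ih =>
    rw [sum_Icc_succ_top (by omega), mul_add, ih]
    have e : Real.exp x * Real.exp (-(((M + 1 : ℕ) : ℝ) * x)) = Real.exp (-((M : ℝ) * x)) := by
      rw [← Real.exp_add]
      congr 1
      push_cast
      ring
    linear_combination e

lemma root_eq {M : ℕ} {x : ℝ} (hx : sp 0 M x = 1) :
    Real.exp x + Real.exp (-(M * x)) = 2 := by
  have := sp_geom M x
  rw [hx] at this
  linarith

lemma log_two_sub_le {M : ℕ} {x : ℝ} (hx0 : 1 / 3 ≤ x) (hx : sp 0 M x = 1) :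
    Real.log 2 - x ≤ Real.exp (-(M * x)) := by
  have h := root_eq hx
  have hM : (0 : ℝ) ≤ M := Nat.cast_nonneg M
  obtain ⟨w, hw⟩ : ∃ w : ℝ, w = Real.exp (-(M * x)) := ⟨_, rfl⟩
  have hw0 : 0 < w := by rw [hw]; exact Real.exp_pos _
  have hw1 : w ≤ 1 := by
    rw [hw]
    apply Real.exp_le_one_iff.mpr
    have : 0 ≤ (M : ℝ) * x := mul_nonneg hM (by linarith)
    linarith
  rw [← hw] at h ⊢
  have h1 := Real.add_one_le_exp (Real.log 2 - x)
  have h2 : Real.exp (Real.log 2 - x) * Real.exp x = 2 := by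
    rw [← Real.exp_add, sub_add_cancel, Real.exp_log (by norm_num)]
  have h3 : Real.exp x = 2 - w := by linarith
  rw [h3] at h2
  have h4 : Real.exp (Real.log 2 - x) ≤ 1 + w := by
    by_contra hcon
    push Not at hcon
    have : (1 + w) * (2 - w) < Real.exp (Real.log 2 - x) * (2 - w) :=
      mul_lt_mul_of_pos_right hcon (by linarith)
    nlinarith
  linarith

lemma exp_Mx_le {M : ℕ} {x : ℝ} (hx0 : 1 / 3 ≤ x) (hx : sp 0 M x = 1) :
    Real.exp (-(M * x)) ≤ Real.exp 3 * (1 / 2) ^ M := by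
  have h1 := log_two_sub_le hx0 hx
  have hM : (0 : ℝ) ≤ M := Nat.cast_nonneg M
  have e : (1 / 2 : ℝ) ^ M = Real.exp (-(M * Real.log 2)) := by
    rw [Real.exp_neg, mul_comm, Real.exp_mul, Real.exp_log (by norm_num), Real.rpow_natCast,
      one_div, inv_pow]
  rw [e, ← Real.exp_add]
  apply Real.exp_le_exp.mpr
  have h2 : (M : ℝ) * (Real.log 2 - x) ≤ M * Real.exp (-(M * x)) :=
    mul_le_mul_of_nonneg_left h1 hM
  have h3 := exp_third hx0 M
  have h4 : (M : ℝ) * Real.exp (-(M * x)) ≤ M * Real.exp (-(M * (1 / 3))) :=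
    mul_le_mul_of_nonneg_left h3 hM
  have h5 : (M : ℝ) * Real.exp (-(M * (1 / 3))) ≤ 3 := by
    have h6 := Real.add_one_le_exp ((M : ℝ) * (1 / 3))
    have h7 : Real.exp (-((M : ℝ) * (1 / 3))) * Real.exp ((M : ℝ) * (1 / 3)) = 1 := by
      rw [← Real.exp_add]; simp
    have h8 : 0 < Real.exp (-((M : ℝ) * (1 / 3))) := Real.exp_pos _
    have h9 : Real.exp (-((M : ℝ) * (1 / 3))) * ((M : ℝ) * (1 / 3)) ≤
        Real.exp (-((M : ℝ) * (1 / 3))) * Real.exp ((M : ℝ) * (1 / 3)) :=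
      mul_le_mul_of_nonneg_left (by linarith) h8.le
    rw [h7] at h9
    linarith
  linarith

lemma alpha_upper {M : ℕ} {x : ℝ} (hx0 : 1 / 3 ≤ x) (hx1 : x < Real.log 2)
    (hx : sp 0 M x = 1) :
    1 / Real.log 2 < 1 / x ∧ 1 / x - 1 / Real.log 2 ≤ 6 * Real.exp 3 * (1 / 2) ^ M := by
  have hx' : 0 < x := by linarith
  have hl : 1 / 2 ≤ Real.log 2 := by
    have := Real.log_two_gt_d9
    linarith
  refine ⟨one_div_lt_one_div_of_lt hx' hx1, ?_⟩
  have h1 := (log_two_sub_le hx0 hx).trans (exp_Mx_le hx0 hx)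
  have e : 1 / x - 1 / Real.log 2 = (Real.log 2 - x) / (x * Real.log 2) := by
    field_simp
  rw [e, div_le_iff₀ (by positivity)]
  have h2 : 1 / 6 ≤ x * Real.log 2 := by
    have : 1 / 3 * (1 / 2) ≤ x * Real.log 2 := mul_le_mul hx0 hl (by norm_num) hx'.le
    linarith
  have h3 : 6 * Real.exp 3 * (1 / 2) ^ M * (1 / 6) ≤
      6 * Real.exp 3 * (1 / 2) ^ M * (x * Real.log 2) :=
    mul_le_mul_of_nonneg_left h2 (by positivity)
  linarith

lemma alpha_lower {M M' : ℕ} (hMM : M < M') {x x' : ℝ} (hx0 : 1 / 3 ≤ x)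
    (hx1 : x < Real.log 2) (hx : sp 0 M x = 1) (hx0' : 1 / 3 ≤ x') (hx1' : x' < Real.log 2)
    (hx' : sp 0 M' x' = 1) :
    1 / (2 * (Sc + 1)) * (1 / 2) ^ M ≤ 1 / x - 1 / x' := by
  have hl := log_two_lt_one
  have hS := Sc_nonneg
  have hp : 0 < x := by linarith
  have hp' : 0 < x' := by linarith
  -- the tail
  have h1 : sp 0 M x' + (1 / 2) ^ (M + 1) ≤ 1 := by
    have h2 : sp 0 (M + 1) x' ≤ sp 0 M' x' := by
      unfold sp
      apply sum_le_sum_of_subset_of_nonneg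
      · exact Icc_subset_Icc_right hMM
      · intro j _ _
        positivity
    have h3 : sp 0 (M + 1) x' = sp 0 M x' + Real.exp (-(((M + 1 : ℕ) : ℝ) * x')) := by
      unfold sp
      rw [sum_Icc_succ_top (by omega)]
      simp
    have h4 : (1 / 2 : ℝ) ^ (M + 1) ≤ Real.exp (-(((M + 1 : ℕ) : ℝ) * x')) := by
      have e : (1 / 2 : ℝ) ^ (M + 1) = Real.exp (-(((M + 1 : ℕ) : ℝ) * Real.log 2)) := by
        rw [Real.exp_neg, mul_comm, Real.exp_mul, Real.exp_log (by norm_num), Real.rpow_natCast,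
          one_div, inv_pow]
      rw [e]
      apply Real.exp_le_exp.mpr
      have : (0 : ℝ) ≤ ((M + 1 : ℕ) : ℝ) := Nat.cast_nonneg _
      nlinarith
    linarith
  have h5 : 0 < (1 / 2 : ℝ) ^ (M + 1) := by positivity
  have h6 : x < x' := by
    by_contra hcon
    push Not at hcon
    have : sp 0 M x ≤ sp 0 M x' := by
      apply sum_le_sum
      intro j _
      apply mul_le_mul_of_nonneg_left _ (by positivity)
      apply Real.exp_le_exp.mpr
      have : (0 : ℝ) ≤ j := Nat.cast_nonneg j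
      nlinarith
    linarith
  have h7 := sp_lip (p := 0) (by norm_num) M hx0 hx0'
  rw [abs_of_pos (show 0 < x' - x by linarith)] at h7
  have h8 := neg_abs_le (sp 0 M x' - sp 0 M x)
  have h9 : (1 / 2 : ℝ) ^ (M + 1) ≤ (x' - x) * (Sc + 1) := by
    have : (x' - x) * Sc ≤ (x' - x) * (Sc + 1) :=
      mul_le_mul_of_nonneg_left (by linarith) (by linarith)
    linarith
  have e : 1 / x - 1 / x' = (x' - x) / (x * x') := by
    field_simp
  rw [e]
  have h10 : x' - x ≤ (x' - x) / (x * x') := by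
    rw [le_div_iff₀ (by positivity)]
    have : x * x' ≤ 1 := by nlinarith
    nlinarith
  refine le_trans ?_ h10
  rw [div_mul_eq_mul_div, one_mul, div_le_iff₀ (by positivity)]
  rw [pow_succ] at h9
  linarith

/-! ### irrationality -/

lemma irr_inv {x : ℝ} (hx : x ≠ 0) (halg : IsAlgebraic ℚ (Real.exp x)) :
    Irrational (1 / x) := by
  rintro ⟨q, hq⟩
  have h1 : IsAlgebraic ℚ (Complex.exp (x : ℂ)) := by
    have := halg.algebraMap (A := ℂ)
    have e : algebraMap ℝ ℂ (Real.exp x) = Complex.exp (x : ℂ) := by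
      rw [← Complex.ofReal_exp]; rfl
    rwa [e] at this
  have h2 := Pool.Agent.Lib.MP_c82530_nt.log_transcendental h1 (by exact_mod_cast hx)
  apply h2
  have h3 : (x : ℂ) = algebraMap ℚ ℂ (1 / q) := by
    have h4 : x = 1 / (q : ℝ) := by
      rw [hq]; field_simp
    rw [h4]
    push_cast
    simp
  rw [h3]
  exact isAlgebraic_algebraMap _

lemma irr_log_two : Irrational (1 / Real.log 2) := by
  apply irr_inv
  · have := third_lt_log_two
    linarith
  · rw [Real.exp_log (by norm_num)]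
    have := isAlgebraic_algebraMap (R := ℚ) (A := ℝ) (2 : ℚ)
    simpa using this

lemma irr_root {M : ℕ} {x : ℝ} (hx0 : 1 / 3 ≤ x) (hx : sp 0 M x = 1) :
    Irrational (1 / x) := by
  apply irr_inv (by linarith)
  have h := root_eq hx
  obtain ⟨E, hE⟩ : ∃ E : ℝ, E = Real.exp x := ⟨_, rfl⟩
  have hE0 : 0 < E := by rw [hE]; exact Real.exp_pos x
  have h1 : Real.exp (-(M * x)) * E ^ M = 1 := by
    rw [hE, ← Real.exp_nat_mul, ← Real.exp_add]
    simp
  rw [← hE] at h ⊢
  have h2 : E ^ (M + 1) - 2 * E ^ M + 1 = 0 := by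
    have h3 : Real.exp (-(M * x)) = 2 - E := by linarith
    rw [h3] at h1
    rw [pow_succ]
    linarith
  refine ⟨(Polynomial.X ^ (M + 1) - Polynomial.C 2 * Polynomial.X ^ M + 1 : Polynomial ℚ),
    ?_, ?_⟩
  · intro h0
    have h3 := congrArg (fun p => Polynomial.eval 2 p) h0
    simp at h3
    rw [pow_succ] at h3
    have : (2 : ℚ) ^ M * 2 - 2 * 2 ^ M = 0 := by ring
    rw [this] at h3
    norm_num at h3
  · simp only [map_add, map_sub, map_mul, map_pow, Polynomial.aeval_X,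
      map_ofNat, map_one]
    exact h2

/-! ### the limit of the constants -/

lemma tendsto_root {x : ℕ → ℝ}
    (hx : ∀ M, 2 ≤ M → 1 / 3 ≤ x M ∧ x M < Real.log 2 ∧ sp 0 M (x M) = 1) :
    Tendsto x atTop (𝓝 (Real.log 2)) := by
  have h1 : Tendsto (fun M : ℕ => Real.log 2 - Real.exp 3 * (1 / 2 : ℝ) ^ M) atTop
      (𝓝 (Real.log 2)) := by
    have := ((tendsto_pow_atTop_nhds_zero_of_lt_one (show (0 : ℝ) ≤ 1 / 2 by norm_num)
      (by norm_num)).const_mul (Real.exp 3)).const_sub (Real.log 2)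
    simpa using this
  refine tendsto_of_tendsto_of_tendsto_of_le_of_le' h1 tendsto_const_nhds ?_ ?_
  · filter_upwards [eventually_ge_atTop 2] with M hM
    obtain ⟨a, b, c⟩ := hx M hM
    have := (log_two_sub_le a c).trans (exp_Mx_le a c)
    linarith
  · filter_upwards [eventually_ge_atTop 2] with M hM
    exact (hx M hM).2.1.le

lemma tendsto_sp {x : ℕ → ℝ}
    (hx : ∀ M, 2 ≤ M → 1 / 3 ≤ x M ∧ x M < Real.log 2 ∧ sp 0 M (x M) = 1) {p : ℕ}
    (hp : 1 ≤ p) :
    Tendsto (fun M => sp p M (x M)) atTop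
      (𝓝 (∑' j : ℕ, (j : ℝ) ^ p * Real.exp (-(j * Real.log 2)))) := by
  have h1 : ∀ M, sp p M (x M) =
      ∑' j : ℕ, (if j ≤ M then (j : ℝ) ^ p * Real.exp (-(j * x M)) else 0) := by
    intro M
    rw [tsum_eq_sum (s := Icc 1 M)]
    · unfold sp
      apply sum_congr rfl
      intro j hj
      rw [mem_Icc] at hj
      rw [if_pos hj.2]
    · intro j hj
      rw [mem_Icc] at hj
      by_cases h0 : j = 0
      · subst h0
        simp
        intro h
        omega
      · rw [if_neg (by omega)]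
  simp only [h1]
  apply tendsto_tsum_of_dominated_convergence (summable_sc p)
  · intro j
    have h2 : Tendsto (fun M => (j : ℝ) ^ p * Real.exp (-(j * x M))) atTop
        (𝓝 ((j : ℝ) ^ p * Real.exp (-(j * Real.log 2)))) := by
      have := tendsto_root hx
      exact ((Real.continuous_exp.tendsto _).comp ((this.const_mul (j : ℝ)).neg)).const_mul _
    refine h2.congr' ?_
    filter_upwards [eventually_ge_atTop j] with M hM
    rw [if_pos hM]
  · filter_upwards [eventually_ge_atTop 2] with M hM j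
    split_ifs with h
    · rw [Real.norm_eq_abs, abs_of_nonneg (by positivity)]
      exact mul_le_mul_of_nonneg_left (exp_third (hx M hM).1 j) (by positivity)
    · rw [norm_zero]
      positivity

lemma tendsto_c {x : ℕ → ℝ}
    (hx : ∀ M, 2 ≤ M → 1 / 3 ≤ x M ∧ x M < Real.log 2 ∧ sp 0 M (x M) = 1) :
    ∃ ci : ℝ, Tendsto (fun M => sp 2 M (x M) / (2 * sp 1 M (x M))) atTop (𝓝 ci) := by
  have h1 := tendsto_sp hx (p := 1) le_rfl
  have h2 := tendsto_sp hx (p := 2) (by norm_num)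
  obtain ⟨l, hl⟩ : ∃ l : ℝ, l = ∑' j : ℕ, (j : ℝ) ^ 1 * Real.exp (-(j * Real.log 2)) := ⟨_, rfl⟩
  rw [← hl] at h1
  have h3 : 1 / 2 ≤ l := by
    apply ge_of_tendsto h1
    filter_upwards [eventually_ge_atTop 2] with M hM
    exact half_le_sp_one (by omega) (hx M hM).2.1.le
  refine ⟨_, h2.div (h1.const_mul 2) ?_⟩
  linarith

/-! ### the density theorem -/

/-- rewriting a solution -/
lemma sol_rewrite {n k m : ℕ} (h : ∑ i ∈ Icc k (k + m), i ^ n = (k + m + 1) ^ n) :
    ∑ j ∈ Icc 1 (m + 1), (1 - (j : ℝ) / ((k + m + 1 : ℕ) : ℝ)) ^ n = 1 := by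
  have hN0 : (0 : ℝ) < ((k + m + 1 : ℕ) : ℝ) := by exact_mod_cast (by omega : 0 < k + m + 1)
  have h1 : ∑ j ∈ Icc 1 (m + 1), (k + m + 1 - j) ^ n = ∑ i ∈ Icc k (k + m), i ^ n := by
    apply sum_nbij' (fun j => k + m + 1 - j) (fun i => k + m + 1 - i)
    · intro j hj; simp only [mem_Icc] at hj ⊢; omega
    · intro j hj; simp only [mem_Icc] at hj ⊢; omega
    · intro j hj; simp only [mem_Icc] at hj ⊢; omega
    · intro j hj; simp only [mem_Icc] at hj ⊢; omega
    · intro j hj; rfl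
  have h2 : ∀ j ∈ Icc 1 (m + 1), (1 - (j : ℝ) / ((k + m + 1 : ℕ) : ℝ)) ^ n =
      (((k + m + 1 - j) ^ n : ℕ) : ℝ) / (((k + m + 1) ^ n : ℕ) : ℝ) := by
    intro j hj
    rw [mem_Icc] at hj
    rw [Nat.cast_pow, Nat.cast_pow, ← div_pow, Nat.cast_sub (by omega), sub_div,
      div_self hN0.ne']
  rw [sum_congr rfl h2, ← sum_div, ← Nat.cast_sum, h1, h, div_self]
  exact_mod_cast (by positivity : (k + m + 1) ^ n ≠ 0)

open Classical in
/-- **Almost all exponents have no solution.** -/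
theorem almost_all : Tendsto (fun X : ℕ => (((Icc 1 X).filter (fun n => ∃ k m : ℕ,
    1 ≤ k ∧ 1 ≤ m ∧ ∑ i ∈ Icc k (k + m), i ^ n = (k + m + 1) ^ n)).card : ℝ) / X)
    atTop (𝓝 0) := by
  -- the roots
  have hex : ∀ M : ℕ, ∃ x : ℝ, 2 ≤ M → 1 / 3 ≤ x ∧ x < Real.log 2 ∧ sp 0 M x = 1 := by
    intro M
    by_cases h : 2 ≤ M
    · obtain ⟨x, hx⟩ := exists_root h
      exact ⟨x, fun _ => hx⟩
    · exact ⟨0, fun h' => absurd h' h⟩
  choose x hx using hex
  obtain ⟨ci, hc⟩ := tendsto_c hx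
  have hS := Sc_nonneg
  have hCa := Ca_nonneg
  have main : ∀ ε : ℝ, 0 < ε → ∀ᶠ X : ℕ in atTop, (((Icc 1 X).filter (fun n => ∃ k m : ℕ,
      1 ≤ k ∧ 1 ≤ m ∧ ∑ i ∈ Icc k (k + m), i ^ n = (k + m + 1) ^ n)).card : ℝ) ≤ ε * X := by
    intro ε hε
    have hδ : 0 < ε / 2 := by positivity
    have hD : 0 < (Ca + 1) / (ε / 2) := by positivity
    have key := density_zero (α := fun M => 1 / x M)
      (c := fun M => sp 2 M (x M) / (2 * sp 1 M (x M))) (αi := 1 / Real.log 2) (ci := ci)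
      (C := 6 * Real.exp 3) (κ := 1 / (2 * (Sc + 1))) (by positivity) (by positivity)
      irr_log_two (fun M hM => irr_root (hx M hM).1 (hx M hM).2.2)
      (fun M hM => alpha_upper (hx M hM).1 (hx M hM).2.1 (hx M hM).2.2)
      (fun M M' hM hMM => alpha_lower hMM (hx M hM).1 (hx M hM).2.1 (hx M hM).2.2
        (hx M' (by omega)).1 (hx M' (by omega)).2.1 (hx M' (by omega)).2.2)
      hc hD hδ
    filter_upwards [key, eventually_gt_atTop 0] with X hX hX0
    have hXr : (0 : ℝ) < X := by exact_mod_cast hX0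
    have hsub : (Icc 1 X).filter (fun n => ∃ k m : ℕ,
        1 ≤ k ∧ 1 ≤ m ∧ ∑ i ∈ Icc k (k + m), i ^ n = (k + m + 1) ^ n) ⊆
        Icc 1 ⌊ε / 2 * X⌋₊ ∪ (Icc 1 X).filter (fun n : ℕ => ∃ M, 2 ≤ M ∧ ∃ N : ℤ,
          |(N : ℝ) - (n : ℝ) * (1 / x M) - sp 2 M (x M) / (2 * sp 1 M (x M))| ≤
            (Ca + 1) / (ε / 2) / (X : ℝ)) := by
      intro n hn
      rw [mem_filter, mem_Icc] at hn
      obtain ⟨⟨n1, n2⟩, k, m, hk, hm, hs⟩ := hn
      rw [mem_union, mem_Icc, mem_filter, mem_Icc]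
      by_cases hle : (n : ℝ) ≤ ε / 2 * X
      · exact Or.inl ⟨n1, Nat.le_floor hle⟩
      · push Not at hle
        refine Or.inr ⟨⟨n1, n2⟩, m + 1, by omega, ((k + m + 1 : ℕ) : ℤ), ?_⟩
        have hroot := hx (m + 1) (by omega)
        have h1 := asym n1 (M := m + 1) (N := k + m + 1) (by omega) (by omega) (sol_rewrite hs)
          hroot.1 hroot.2.1 hroot.2.2
        rw [Int.cast_natCast]
        refine h1.trans ?_
        have hn0 : (0 : ℝ) < n := by exact_mod_cast n1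
        rw [div_div]
        calc Ca / (n : ℝ) ≤ (Ca + 1) / n := by
              apply div_le_div_of_nonneg_right (by linarith) hn0.le
          _ ≤ (Ca + 1) / (ε / 2 * X) :=
              div_le_div_of_nonneg_left (by linarith) (by positivity) hle.le
    have hcard := (Nat.cast_le (α := ℝ).2 ((card_le_card hsub).trans (card_union_le _ _)))
    rw [Nat.cast_add, Nat.card_Icc] at hcard
    have hfl : ((⌊ε / 2 * X⌋₊ + 1 - 1 : ℕ) : ℝ) ≤ ε / 2 * X := by
      rw [Nat.add_sub_cancel]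
      exact Nat.floor_le (by positivity)
    refine hcard.trans ?_
    linarith
  rw [Metric.tendsto_atTop]
  intro ε hε
  have h1 := (main (ε / 2) (by positivity)).and (eventually_gt_atTop 0)
  obtain ⟨X0, hX0⟩ := eventually_atTop.mp h1
  refine ⟨X0, fun X hX => ?_⟩
  obtain ⟨h2, h3⟩ := hX0 X hX
  have h3r : (0 : ℝ) < X := by exact_mod_cast h3
  rw [Real.dist_eq, sub_zero, abs_of_nonneg (by positivity), div_lt_iff₀ h3r]
  nlinarith

end Pool.Agent.Lib.MP_d0b36d_nt
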