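import Mathlib

set_option autoImplicit false

namespace Pool.Agent.Lib.MP_d0b36d_nt

open Finset

/-- `(x + y)^m` modulo `y^2`. -/
lemma pow_add_mod (x y : ℤ) (m : ℕ) : y ^ 2 ∣ (x + y) ^ m - x ^ m - m * x ^ (m - 1) * y := by
  obtain ⟨k, hk⟩ := Polynomial.powAddExpansion x y m
  rw [hk]
  exact ⟨k, by ring⟩

/-- sums over the residue class `1` modulo `3`, one block of length `3^e`. -/
lemma block (m : ℕ) : ∀ (e : ℕ) (a : ℤ),
    (3 : ℤ) ^ (e + 1) ∣ (∑ j ∈ range (3 ^ e), (3 * (a + j) + 1) ^ m) - 3 ^ e := by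
  intro e
  induction e with
  | zero =>
    intro a
    simp only [pow_zero, sum_range_one, Nat.cast_zero, add_zero, zero_add, pow_one]
    have h := sub_dvd_pow_sub_pow (3 * a + 1) 1 m
    rw [one_pow] at h
    exact (Dvd.intro a (by ring)).trans h
  | succ e ih =>
    intro a
    have hsplit : (3 : ℕ) ^ (e + 1) = 3 ^ e + 3 ^ e + 3 ^ e := by ring
    have h1 : (3 : ℤ) ^ (e + 2) ∣ (∑ j ∈ range (3 ^ (e + 1)), (3 * (a + j) + 1) ^ m) -
        3 * ∑ j ∈ range (3 ^ e), (3 * (a + j) + 1) ^ m := by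
      rw [hsplit, sum_range_add, sum_range_add, mul_sum, ← sum_add_distrib, ← sum_add_distrib,
        ← sum_sub_distrib]
      apply dvd_sum
      intro j _
      set x : ℤ := 3 * (a + j) + 1 with hx
      have hy1 := pow_add_mod x (3 ^ (e + 1)) m
      have hy2 := pow_add_mod x (2 * 3 ^ (e + 1)) m
      have hd1 : (3 : ℤ) ^ (e + 2) ∣ (x + 3 ^ (e + 1)) ^ m - x ^ m - m * x ^ (m - 1) * 3 ^ (e + 1) := by
        refine dvd_trans ?_ hy1
        rw [← pow_mul]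
        exact pow_dvd_pow 3 (by omega)
      have hd2 : (3 : ℤ) ^ (e + 2) ∣
          (x + 2 * 3 ^ (e + 1)) ^ m - x ^ m - m * x ^ (m - 1) * (2 * 3 ^ (e + 1)) := by
        refine dvd_trans ?_ hy2
        rw [mul_pow, ← pow_mul]
        exact dvd_mul_of_dvd_right (pow_dvd_pow 3 (by omega)) _
      have e1 : (3 * (a + ((3 ^ e + j : ℕ) : ℤ)) + 1 : ℤ) = x + 3 ^ (e + 1) := by
        push_cast; rw [hx]; ring
      have e2 : (3 * (a + ((3 ^ e + 3 ^ e + j : ℕ) : ℤ)) + 1 : ℤ) = x + 2 * 3 ^ (e + 1) := by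
        push_cast; rw [hx]; ring
      rw [e1, e2]
      have e3 : x ^ m + (x + 3 ^ (e + 1)) ^ m + (x + 2 * 3 ^ (e + 1)) ^ m - 3 * x ^ m =
          ((x + 3 ^ (e + 1)) ^ m - x ^ m - m * x ^ (m - 1) * 3 ^ (e + 1)) +
          ((x + 2 * 3 ^ (e + 1)) ^ m - x ^ m - m * x ^ (m - 1) * (2 * 3 ^ (e + 1))) +
          3 ^ (e + 2) * (m * x ^ (m - 1)) := by ring
      rw [e3]
      exact dvd_add (dvd_add hd1 hd2) (dvd_mul_right _ _)
    have h2 : (3 : ℤ) ^ (e + 2) ∣ 3 * (∑ j ∈ range (3 ^ e), (3 * (a + j) + 1) ^ m) - 3 ^ (e + 1) := by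
      obtain ⟨c, hc⟩ := ih a
      refine ⟨c, ?_⟩
      have : 3 * (∑ j ∈ range (3 ^ e), (3 * (a + j) + 1) ^ m) - 3 ^ (e + 1) =
        3 * ((∑ j ∈ range (3 ^ e), (3 * (a + j) + 1) ^ m) - 3 ^ e) := by ring
      rw [this, hc]
      ring
    have h3 := dvd_add h1 h2
    have e4 : (∑ j ∈ range (3 ^ (e + 1)), (3 * (a + j) + 1) ^ m) - 3 ^ (e + 1) =
        ((∑ j ∈ range (3 ^ (e + 1)), (3 * (a + j) + 1) ^ m) -
        3 * ∑ j ∈ range (3 ^ e), (3 * (a + j) + 1) ^ m) +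
        (3 * (∑ j ∈ range (3 ^ e), (3 * (a + j) + 1) ^ m) - 3 ^ (e + 1)) := by ring
    rw [e4]
    exact h3

/-- sums over the residue class `1` modulo `3`. -/
lemma class_sum (m e : ℕ) (a : ℤ) (r : ℕ) :
    (3 : ℤ) ^ (e + 1) ∣ (∑ j ∈ range (3 ^ e * r), (3 * (a + j) + 1) ^ m) - 3 ^ e * r := by
  induction r with
  | zero => simp
  | succ r ih =>
    rw [Nat.mul_succ, sum_range_add]
    have h := block m e (a + 3 ^ e * r)
    have e1 : ∑ j ∈ range (3 ^ e), (3 * (a + ((3 ^ e * r + j : ℕ) : ℤ)) + 1) ^ m =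
        ∑ j ∈ range (3 ^ e), (3 * (a + 3 ^ e * r + j) + 1) ^ m := by
      apply sum_congr rfl
      intro j _
      push_cast; ring
    rw [e1]
    have h3 := dvd_add ih h
    have e4 : (∑ j ∈ range (3 ^ e * r), (3 * (a + j) + 1) ^ m +
        ∑ j ∈ range (3 ^ e), (3 * (a + 3 ^ e * r + j) + 1) ^ m) - 3 ^ e * ((r + 1 : ℕ) : ℤ) =
        (∑ j ∈ range (3 ^ e * r), (3 * (a + j) + 1) ^ m - 3 ^ e * r) +
        (∑ j ∈ range (3 ^ e), (3 * (a + 3 ^ e * r + j) + 1) ^ m - 3 ^ e) := by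
      push_cast; ring
    rw [e4]
    exact h3

lemma add_two_le_three_pow : ∀ m : ℕ, 1 ≤ m → m + 2 ≤ 3 ^ m := by
  intro m hm
  induction m, hm using Nat.le_induction with
  | base => norm_num
  | succ m _ ih => rw [pow_succ]; omega

lemma choose_val {n r : ℕ} (hr : 2 ≤ r) (hrn : r ≤ n) {Q : ℕ} (hQ0 : Q ≠ 0) (hQ : 3 ∣ Q) :
    3 ^ (padicValNat 3 n + padicValNat 3 Q + 1) ∣ n.choose r * Q ^ r := by
  have : Fact (Nat.Prime 3) := ⟨Nat.prime_three⟩
  have hn0 : n ≠ 0 := by omega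
  have hC : n.choose r ≠ 0 := (Nat.choose_pos hrn).ne'
  have hC' : (n - 1).choose (r - 1) ≠ 0 := (Nat.choose_pos (by omega)).ne'
  have hQr : Q ^ r ≠ 0 := pow_ne_zero _ hQ0
  rw [padicValNat_dvd_iff_le (mul_ne_zero hC hQr), padicValNat.mul hC hQr, padicValNat.pow]
  have hq : 1 ≤ padicValNat 3 Q := one_le_padicValNat_of_dvd hQ0 hQ
  have hid : r * n.choose r = n * (n - 1).choose (r - 1) := by
    have := Nat.add_one_mul_choose_eq (n - 1) (r - 1)
    rw [Nat.sub_add_cancel (by omega), Nat.sub_add_cancel (by omega)] at this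
    rw [this]; ring
  have hval : padicValNat 3 r + padicValNat 3 (n.choose r) =
      padicValNat 3 n + padicValNat 3 ((n - 1).choose (r - 1)) := by
    rw [← padicValNat.mul (by omega) hC, ← padicValNat.mul hn0 hC', hid]
  have hρ : padicValNat 3 r + 2 ≤ r := by
    set ρ := padicValNat 3 r with hρdef
    have h1 : 3 ^ ρ ≤ r := Nat.le_of_dvd (by omega) pow_padicValNat_dvd
    rcases Nat.eq_zero_or_pos ρ with h | h
    · omega
    · have h2 := add_two_le_three_pow ρ h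
      omega
  have h3 : padicValNat 3 Q + (r - 1) ≤ r * padicValNat 3 Q := by
    obtain ⟨s, hs⟩ : ∃ s, r = s + 1 := ⟨r - 1, by omega⟩
    subst hs
    rw [Nat.add_sub_cancel]
    nlinarith
  omega

/-- The main 3-adic congruence: with `x_j = 3 (u + j) + 1`, `j < t`, and `Q = 3 (2 u + t)`,
the sum of `x_j ^ n + (Q - x_j) ^ n` is congruent to `n Q t` to high 3-adic precision. -/
lemma main_congr {n : ℕ} (hn : Odd n) (u t : ℕ) (ht : 0 < t) :
    (3 : ℤ) ^ (padicValNat 3 n + padicValNat 3 (3 * (2 * u + t)) + padicValNat 3 t + 1) ∣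
      (∑ j ∈ range t, ((3 * ((u : ℤ) + j) + 1) ^ n +
        ((3 * (2 * u + t) : ℕ) - (3 * ((u : ℤ) + j) + 1)) ^ n)) - n * (3 * (2 * u + t) : ℕ) * t := by
  have : Fact (Nat.Prime 3) := ⟨Nat.prime_three⟩
  set Q : ℕ := 3 * (2 * u + t) with hQ
  have hQ0 : Q ≠ 0 := by omega
  have hQ3 : 3 ∣ Q := Dvd.intro _ rfl
  set α := padicValNat 3 n with hα
  set q := padicValNat 3 Q with hq
  set e := padicValNat 3 t with he
  obtain ⟨r, hr⟩ : 3 ^ e ∣ t := pow_padicValNat_dvd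
  have hn0 : n ≠ 0 := by rintro rfl; simp at hn
  -- class sums
  have hX : ∀ m : ℕ, (3 : ℤ) ^ (e + 1) ∣ (∑ j ∈ range t, (3 * ((u : ℤ) + j) + 1) ^ m) - t := by
    intro m
    have := class_sum m e (u : ℤ) r
    rw [← hr] at this
    have e1 : (t : ℤ) = 3 ^ e * r := by exact_mod_cast hr
    rw [e1]; exact this
  have hte : (3 : ℤ) ^ e ∣ t := by exact_mod_cast (⟨r, hr⟩ : 3 ^ e ∣ t)
  have hX' : ∀ m : ℕ, (3 : ℤ) ^ e ∣ (∑ j ∈ range t, (3 * ((u : ℤ) + j) + 1) ^ m) := by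
    intro m
    have h1 := (pow_dvd_pow (3 : ℤ) (Nat.le_succ e)).trans (hX m)
    have := dvd_add h1 hte
    simpa using this
  -- binomial expansion
  have hexp : ∀ x : ℤ, x ^ n + ((Q : ℤ) - x) ^ n = n * Q * x ^ (n - 1) +
      ∑ i ∈ Ico 2 (n + 1), (n.choose i : ℤ) * Q ^ i * (-x) ^ (n - i) := by
    intro x
    have h1 : ((Q : ℤ) - x) ^ n = ∑ i ∈ range (n + 1), (Q : ℤ) ^ i * (-x) ^ (n - i) * n.choose i := by
      rw [sub_eq_add_neg, add_pow]
    rw [h1, range_eq_Ico, sum_eq_sum_Ico_succ_bot (by omega), sum_eq_sum_Ico_succ_bot (by omega)]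
    have h2 : ((-x) ^ n : ℤ) = - x ^ n := hn.neg_pow x
    have h3 : ((-x) ^ (n - 1) : ℤ) = x ^ (n - 1) := by
      obtain ⟨s, hs⟩ := hn
      have : Even (n - 1) := ⟨s, by omega⟩
      exact this.neg_pow x
    simp only [pow_zero, Nat.sub_zero, Nat.choose_zero_right, Nat.cast_one, mul_one, one_mul,
      zero_add, pow_one, Nat.choose_one_right]
    rw [h2, h3]
    have h4 : ∑ i ∈ Ico (1 + 1) (n + 1), (Q : ℤ) ^ i * (-x) ^ (n - i) * (n.choose i : ℤ) =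
        ∑ i ∈ Ico 2 (n + 1), (n.choose i : ℤ) * Q ^ i * (-x) ^ (n - i) := by
      apply sum_congr rfl
      intro i _; ring
    rw [h4]; ring
  have hsum : (∑ j ∈ range t, ((3 * ((u : ℤ) + j) + 1) ^ n +
        ((Q : ℤ) - (3 * ((u : ℤ) + j) + 1)) ^ n)) =
      n * Q * (∑ j ∈ range t, (3 * ((u : ℤ) + j) + 1) ^ (n - 1)) +
      ∑ i ∈ Ico 2 (n + 1), ((n.choose i * Q ^ i : ℕ) : ℤ) * ((-1) ^ (n - i) *
        ∑ j ∈ range t, (3 * ((u : ℤ) + j) + 1) ^ (n - i)) := by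
    calc _ = ∑ j ∈ range t, (n * Q * (3 * ((u : ℤ) + j) + 1) ^ (n - 1) +
        ∑ i ∈ Ico 2 (n + 1), (n.choose i : ℤ) * Q ^ i * (-(3 * ((u : ℤ) + j) + 1)) ^ (n - i)) :=
          sum_congr rfl (fun j _ => hexp _)
      _ = _ := by
        rw [sum_add_distrib, ← mul_sum, sum_comm]
        congr 1
        apply sum_congr rfl
        intro i _
        rw [mul_sum, mul_sum]
        apply sum_congr rfl
        intro j _
        rw [neg_pow]; push_cast; ring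
  rw [hsum]
  have hA : (3 : ℤ) ^ (α + q + e + 1) ∣ n * Q * (∑ j ∈ range t, (3 * ((u : ℤ) + j) + 1) ^ (n - 1)) -
      n * Q * t := by
    rw [← mul_sub]
    have hnd : (3 : ℤ) ^ α ∣ n := by exact_mod_cast (pow_padicValNat_dvd : 3 ^ padicValNat 3 n ∣ n)
    have hQd : (3 : ℤ) ^ q ∣ Q := by exact_mod_cast (pow_padicValNat_dvd : 3 ^ padicValNat 3 Q ∣ Q)
    have := mul_dvd_mul (mul_dvd_mul hnd hQd) (hX (n - 1))
    rw [← pow_add, ← pow_add] at this
    exact this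
  have hB : (3 : ℤ) ^ (α + q + e + 1) ∣ ∑ i ∈ Ico 2 (n + 1), ((n.choose i * Q ^ i : ℕ) : ℤ) *
      ((-1) ^ (n - i) * ∑ j ∈ range t, (3 * ((u : ℤ) + j) + 1) ^ (n - i)) := by
    apply dvd_sum
    intro i hi
    rw [mem_Ico] at hi
    have h1 : (3 : ℤ) ^ (α + q + 1) ∣ ((n.choose i * Q ^ i : ℕ) : ℤ) := by
      exact_mod_cast choose_val hi.1 (by omega) hQ0 hQ3
    have h2 : (3 : ℤ) ^ e ∣ (-1) ^ (n - i) * ∑ j ∈ range t, (3 * ((u : ℤ) + j) + 1) ^ (n - i) :=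
      dvd_mul_of_dvd_right (hX' _) _
    have := mul_dvd_mul h1 h2
    rw [← pow_add] at this
    rw [show α + q + e + 1 = α + q + 1 + e by ring]
    exact this
  have h3 := dvd_add hA hB
  have e4 : n * Q * (∑ j ∈ range t, (3 * ((u : ℤ) + j) + 1) ^ (n - 1)) +
      ∑ i ∈ Ico 2 (n + 1), ((n.choose i * Q ^ i : ℕ) : ℤ) * ((-1) ^ (n - i) *
        ∑ j ∈ range t, (3 * ((u : ℤ) + j) + 1) ^ (n - i)) - n * Q * t =
      (n * Q * (∑ j ∈ range t, (3 * ((u : ℤ) + j) + 1) ^ (n - 1)) - n * Q * t) +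
      ∑ i ∈ Ico 2 (n + 1), ((n.choose i * Q ^ i : ℕ) : ℤ) * ((-1) ^ (n - i) *
        ∑ j ∈ range t, (3 * ((u : ℤ) + j) + 1) ^ (n - i)) := by ring
  rw [e4]
  exact h3

/-- If `3^n` divides the sum of the `n`-th powers of the integers in `[3u, 3(u+t))`, `n` odd, then
`3^n ≤ n * 3 (2u+t) * t`. -/
lemma three_pow_le {n : ℕ} (hn : Odd n) (u t : ℕ) (ht : 0 < t)
    (h : 3 ^ n ∣ ∑ i ∈ Ico (3 * u) (3 * (u + t)), i ^ n) : 3 ^ n ≤ n * (3 * (2 * u + t)) * t := by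
  have : Fact (Nat.Prime 3) := ⟨Nat.prime_three⟩
  have hn0 : n ≠ 0 := by rintro rfl; simp at hn
  set Q : ℕ := 3 * (2 * u + t) with hQ
  have hQ0 : Q ≠ 0 := by omega
  -- rewrite the sum
  have hs : ∀ t : ℕ, ∑ i ∈ Ico (3 * u) (3 * (u + t)), (i : ℤ) ^ n =
      ∑ j ∈ range t, ((3 * ((u : ℤ) + j)) ^ n + (3 * ((u : ℤ) + j) + 1) ^ n +
        (3 * ((u : ℤ) + j) + 2) ^ n) := by
    intro t
    induction t with
    | zero => simp
    | succ t ih =>
      rw [sum_range_succ, ← ih, show 3 * (u + (t + 1)) = 3 * (u + t) + 1 + 1 + 1 by ring,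
        sum_Ico_succ_top (by omega), sum_Ico_succ_top (by omega), sum_Ico_succ_top (by omega)]
      push_cast
      ring
  have hT : (3 : ℤ) ^ n ∣ ∑ j ∈ range t, ((3 * ((u : ℤ) + j) + 1) ^ n +
        ((Q : ℤ) - (3 * ((u : ℤ) + j) + 1)) ^ n) := by
    have h1 : (3 : ℤ) ^ n ∣ ∑ i ∈ Ico (3 * u) (3 * (u + t)), (i : ℤ) ^ n := by exact_mod_cast h
    rw [hs t] at h1
    have h2 : (3 : ℤ) ^ n ∣ ∑ j ∈ range t, (3 * ((u : ℤ) + j)) ^ n := by
      apply dvd_sum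
      intro j _
      exact pow_dvd_pow_of_dvd (Dvd.intro _ rfl) n
    rw [sum_add_distrib, sum_add_distrib, add_assoc] at h1
    have h3 := (dvd_add_right h2).mp h1
    rw [sum_add_distrib]
    have h4 : ∑ j ∈ range t, ((Q : ℤ) - (3 * ((u : ℤ) + j) + 1)) ^ n =
        ∑ j ∈ range t, (3 * ((u : ℤ) + j) + 2) ^ n := by
      rw [← sum_range_reflect]
      apply sum_congr rfl
      intro j hj
      rw [mem_range] at hj
      congr 1
      have : ((t - 1 - j : ℕ) : ℤ) = t - 1 - j := by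
        rw [Nat.cast_sub (by omega), Nat.cast_sub (by omega)]; simp
      rw [this, hQ]; push_cast; ring
    rw [h4]; exact h3
  have hcong := main_congr hn u t ht
  rw [← hQ] at hcong
  set s := padicValNat 3 n + padicValNat 3 Q + padicValNat 3 t with hsdef
  have hD0 : n * Q * t ≠ 0 := by positivity
  have hval : padicValNat 3 (n * Q * t) = s := by
    rw [padicValNat.mul (by positivity) (by positivity), padicValNat.mul hn0 hQ0]
  have hle : n ≤ s := by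
    by_contra hlt
    push Not at hlt
    have h1 : (3 : ℤ) ^ (s + 1) ∣ ∑ j ∈ range t, ((3 * ((u : ℤ) + j) + 1) ^ n +
        ((Q : ℤ) - (3 * ((u : ℤ) + j) + 1)) ^ n) := (pow_dvd_pow 3 hlt).trans hT
    have h2 := (dvd_sub_right h1).mp hcong
    have h3 : 3 ^ (s + 1) ∣ n * Q * t := by exact_mod_cast h2
    rw [padicValNat_dvd_iff_le hD0, hval] at h3
    omega
  have hdvd : 3 ^ n ∣ n * Q * t := by
    rw [padicValNat_dvd_iff_le hD0, hval]; exact hle
  exact Nat.le_of_dvd (Nat.pos_of_ne_zero hD0) hdvd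

/-- size bound: in a solution `N ≤ 3 n`. -/
lemma size_bound {n k N : ℕ} (hn : 1 ≤ n) (hkN : k + 2 ≤ N)
    (h : ∑ i ∈ Ico k N, i ^ n = N ^ n) : N ≤ 3 * n := by
  by_contra hlt
  push Not at hlt
  have h1 : (N - 1) ^ n + (N - 2) ^ n ≤ N ^ n := by
    rw [← h]
    have hsub : ({N - 1, N - 2} : Finset ℕ) ⊆ Ico k N := by
      intro i hi
      rw [mem_insert, mem_singleton] at hi
      rw [mem_Ico]; omega
    calc (N - 1) ^ n + (N - 2) ^ n = ∑ i ∈ ({N - 1, N - 2} : Finset ℕ), i ^ n := by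
          rw [sum_pair (by omega)]
      _ ≤ _ := sum_le_sum_of_subset hsub
  have hN0 : (0 : ℝ) < N := by exact_mod_cast (by omega : 0 < N)
  have hN2 : (2 : ℝ) ≤ N := by exact_mod_cast (by omega : 2 ≤ N)
  have h2 : ((N : ℝ) - 1) ^ n + ((N : ℝ) - 2) ^ n ≤ (N : ℝ) ^ n := by
    have e1 : ((N - 1 : ℕ) : ℝ) = (N : ℝ) - 1 := by rw [Nat.cast_sub (by omega)]; simp
    have e2 : ((N - 2 : ℕ) : ℝ) = (N : ℝ) - 2 := by rw [Nat.cast_sub (by omega)]; simp
    rw [← e1, ← e2]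
    exact_mod_cast h1
  have hn' : (3 : ℝ) * n < N := by exact_mod_cast hlt
  have b1 : 1 + (n : ℝ) * (-(1 / N)) ≤ (1 + (-(1 / N))) ^ n := by
    apply one_add_mul_le_pow
    have : 1 / (N : ℝ) ≤ 1 := by rw [div_le_one hN0]; linarith
    linarith
  have b2 : 1 + (n : ℝ) * (-(2 / N)) ≤ (1 + (-(2 / N))) ^ n := by
    apply one_add_mul_le_pow
    have : 2 / (N : ℝ) ≤ 1 := by rw [div_le_one hN0]; linarith
    linarith
  have c1 : ((N : ℝ) - 1) ^ n = N ^ n * (1 + (-(1 / N))) ^ n := by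
    rw [← mul_pow]; congr 1; field_simp; ring
  have c2 : ((N : ℝ) - 2) ^ n = N ^ n * (1 + (-(2 / N))) ^ n := by
    rw [← mul_pow]; congr 1; field_simp; ring
  rw [c1, c2] at h2
  have hNn : (0 : ℝ) < (N : ℝ) ^ n := by positivity
  have h3 : (1 + (-(1 / (N : ℝ)))) ^ n + (1 + (-(2 / (N : ℝ)))) ^ n ≤ 1 := by
    have : (N : ℝ) ^ n * ((1 + (-(1 / (N : ℝ)))) ^ n + (1 + (-(2 / (N : ℝ)))) ^ n) ≤
      (N : ℝ) ^ n * 1 := by linarith
    exact le_of_mul_le_mul_left this hNn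
  have h4 : (n : ℝ) / N < 1 / 3 := by
    rw [div_lt_iff₀ hN0]; linarith
  have h5 : (n : ℝ) * (-(1 / N)) = -(n / N) := by ring
  have h6 : (n : ℝ) * (-(2 / N)) = -2 * (n / N) := by ring
  rw [h5] at b1
  rw [h6] at b2
  linarith

/-- congruences modulo `3`. -/
lemma mod_three {n k N : ℕ} (hn : Odd n) (hkN : k ≤ N)
    (h : ∑ i ∈ Ico k N, i ^ n = N ^ n) : 3 ∣ N ∧ (3 ∣ k ∨ 3 ∣ k - 1) := by
  obtain ⟨s, hs⟩ := hn
  have hpow : ∀ x : ZMod 3, x ^ n = x := by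
    intro x
    have h3 : x ^ 3 = x := by revert x; decide
    rw [hs]
    clear hs h
    induction s with
    | zero => simp
    | succ s ih =>
      rw [show 2 * (s + 1) + 1 = (2 * s + 1) + 2 by ring, pow_add, ih, ← pow_succ', h3]
  have h1 : ∑ i ∈ Ico k N, (i : ZMod 3) = N := by
    have := congrArg (Nat.cast : ℕ → ZMod 3) h
    push_cast at this
    rw [hpow] at this
    rw [← this]
    exact sum_congr rfl (fun i _ => (hpow _).symm)
  have h2 : ∀ N, k ≤ N → 2 * ∑ i ∈ Ico k N, (i : ZMod 3) = N * (N - 1) - k * (k - 1) := by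
    intro N hN
    induction N, hN using Nat.le_induction with
    | base => simp
    | succ N hN ih =>
      rw [sum_Ico_succ_top hN, mul_add, ih]
      push_cast; ring
  have h3 := h2 N hkN
  rw [h1] at h3
  have h4 : ∀ a b : ZMod 3, 2 * a = a * (a - 1) - b * (b - 1) → a = 0 ∧ (b = 0 ∨ b = 1) := by
    decide
  obtain ⟨ha, hb⟩ := h4 _ _ h3
  refine ⟨(ZMod.natCast_eq_zero_iff N 3).mp ha, ?_⟩
  rcases hb with hb | hb
  · exact Or.inl ((ZMod.natCast_eq_zero_iff k 3).mp hb)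
  · rcases Nat.eq_zero_or_pos k with h0 | h0
    · left; rw [h0]; exact dvd_zero 3
    · right
      rw [← ZMod.natCast_eq_zero_iff, Nat.cast_sub h0, hb]; simp

/-- No solution of odd degree at least `5`. -/
theorem odd_case {n k N : ℕ} (hn : Odd n) (hn5 : 5 ≤ n) (hk : 1 ≤ k) (hkN : k + 2 ≤ N) :
    ∑ i ∈ Ico k N, i ^ n ≠ N ^ n := by
  intro h
  have hsize := size_bound (by omega) hkN h
  obtain ⟨hN3, hk3⟩ := mod_three hn (by omega) h
  -- the starting point divisible by three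
  obtain ⟨u, t, ht, hNut, hdvd⟩ : ∃ u t : ℕ, 0 < t ∧ N = 3 * (u + t) ∧
      3 ^ n ∣ ∑ i ∈ Ico (3 * u) (3 * (u + t)), i ^ n := by
    obtain ⟨w, hw⟩ := hN3
    rcases hk3 with ⟨u, hu⟩ | ⟨u, hu⟩
    · refine ⟨u, w - u, by omega, by omega, ?_⟩
      rw [← hu, show 3 * (u + (w - u)) = N by omega, h, hw]
      exact pow_dvd_pow_of_dvd (Dvd.intro _ rfl) n
    · refine ⟨u, w - u, by omega, by omega, ?_⟩
      rw [show 3 * (u + (w - u)) = N by omega, sum_eq_sum_Ico_succ_bot (by omega),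
        show 3 * u + 1 = k by omega, h, hw]
      exact dvd_add (pow_dvd_pow_of_dvd (Dvd.intro _ rfl) n)
        (pow_dvd_pow_of_dvd (Dvd.intro _ rfl) n)
  have hle := three_pow_le hn u t ht hdvd
  have hlt : n * (3 * (2 * u + t)) * t ≤ 3 * n ^ 3 := by
    have h1 : (2 * u + t) * t ≤ (u + t) ^ 2 := by nlinarith
    have h2 : u + t ≤ n := by omega
    calc n * (3 * (2 * u + t)) * t = 3 * n * ((2 * u + t) * t) := by ring
      _ ≤ 3 * n * (u + t) ^ 2 := Nat.mul_le_mul_left _ h1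
      _ ≤ 3 * n * n ^ 2 := Nat.mul_le_mul_left _ (Nat.pow_le_pow_left h2 2)
      _ = 3 * n ^ 3 := by ring
  have hpow : ∀ m : ℕ, 7 ≤ m → 3 * m ^ 3 < 3 ^ m := by
    intro m hm
    induction m, hm using Nat.le_induction with
    | base => norm_num
    | succ m hm ih =>
      rw [pow_succ 3 m]
      have : (m + 1) ^ 3 ≤ 3 * m ^ 3 := by
        have e : (m + 1) ^ 3 = m ^ 3 + 3 * m ^ 2 + 3 * m + 1 := by ring
        have a1 : 7 * m ^ 2 ≤ m ^ 3 := by
          calc 7 * m ^ 2 ≤ m * m ^ 2 := Nat.mul_le_mul_right _ hm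
            _ = m ^ 3 := by ring
        have a2 : 7 * m ≤ m ^ 2 := by
          calc 7 * m ≤ m * m := Nat.mul_le_mul_right _ hm
            _ = m ^ 2 := by ring
        omega
      omega
  rcases Nat.lt_or_ge n 7 with h7 | h7
  · have hn' : n = 5 := by
      obtain ⟨s, hs⟩ := hn; omega
    subst hn'
    have hN15 : N ≤ 15 := by omega
    have key : ∀ N ∈ range 16, ∀ k ∈ range 16, 1 ≤ k → k + 2 ≤ N →
        ∑ i ∈ Ico k N, i ^ 5 ≠ N ^ 5 := by decide +kernel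
    exact key N (mem_range.mpr (by omega)) k (mem_range.mpr (by omega)) hk hkN h
  · have := hpow n h7
    omega

end Pool.Agent.Lib.MP_d0b36d_nt
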